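import Pool.Agent.Lib.LD.Def
import Pool.Agent.Lib.H85TF.P2

/-! Separations of a 2-connected graph: if all the separations which separate `N` are crossed, then
there is a cycle through `N`. -/

set_option autoImplicit false

namespace H40T

open Finset H98M LD

variable {V : Type*} [DecidableEq V]

section paths

/-- concatenation of two paths which meet only in `u` -/
theorem path_append {G : SimpleGraph V} {x u y : V} (p : G.Walk x u) (q : G.Walk u y)
    (hp : p.IsPath) (hq : q.IsPath) (h : ∀ v ∈ p.support, v ∈ q.support → v = u) :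
    (p.append q).IsPath := by
  rw [SimpleGraph.Walk.isPath_def, SimpleGraph.Walk.support_append, List.nodup_append']
  have hq' := hq.support_nodup
  rw [SimpleGraph.Walk.support_eq_cons, List.nodup_cons] at hq'
  refine ⟨hp.support_nodup, hq'.2, ?_⟩
  intro v hv hv'
  have h1 : v ∈ q.support := List.mem_of_mem_tail hv'
  have h2 := h v hv h1
  rw [h2] at hv'
  exact hq'.1 hv'

end paths

section basic

variable {E : Finset (Sym2 V)} {Y : Finset V}

theorem mem_of_sep {x y : V} {P Q : Finset V} (h : Sep E Y x y P Q) {v : V} :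
    v ∈ Y ↔ v = x ∨ v = y ∨ v ∈ P ∨ v ∈ Q := by
  rw [← h.eq]
  simp only [mem_insert, mem_union]

/-- edges at a vertex of the side `P` -/
theorem nb_side (hT : TCY E Y) {x y : V} {P Q : Finset V} (h : Sep E Y x y P Q) {a b : V}
    (ha : a ∈ P) (hab : s(a, b) ∈ E) : b = x ∨ b = y ∨ b ∈ P := by
  have hb : b ∈ Y := hT.sub _ hab b (Sym2.mem_mk_right a b)
  rcases (mem_of_sep h).1 hb with h1 | h1 | h1 | h1
  · exact Or.inl h1
  · exact Or.inr (Or.inl h1)
  · exact Or.inr (Or.inr h1)
  · exact absurd hab (h.noE a ha b h1)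

/-- a nonempty proper subset without outgoing edges except to `z` -/
theorem no_cut (hT : TCY E Y) {z : V} (hz : z ∈ Y) {A : Finset V} (hA : A.Nonempty)
    (hAY : A ⊆ Y) (hzA : z ∉ A) (hout : ∀ a ∈ A, ∀ b, s(a, b) ∈ E → b ∈ A ∨ b = z)
    {w : V} (hw : w ∈ Y) (hwz : w ≠ z) (hwA : w ∉ A) : False := by
  refine hT.conn' z hz ⟨A, (Y.erase z) \ A, hA, ⟨w, ?_⟩, disjoint_sdiff, ?_, ?_⟩
  · rw [mem_sdiff, mem_erase]
    exact ⟨⟨hwz, hw⟩, hwA⟩
  · apply union_sdiff_of_subset
    intro a ha
    rw [mem_erase]
    refine ⟨?_, hAY ha⟩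
    rintro rfl
    exact hzA ha
  · intro a ha b hb hab
    rw [mem_sdiff, mem_erase] at hb
    rcases hout a ha b hab with h1 | h1
    · exact hb.2 h1
    · exact hb.1.1 h1

theorem sub_side {x y : V} {P Q : Finset V} (h : Sep E Y x y P Q) : P ⊆ Y := fun v hv =>
  (mem_of_sep h).2 (Or.inr (Or.inr (Or.inl hv)))

theorem x_mem {x y : V} {P Q : Finset V} (h : Sep E Y x y P Q) : x ∈ Y :=
  (mem_of_sep h).2 (Or.inl rfl)

theorem y_mem {x y : V} {P Q : Finset V} (h : Sep E Y x y P Q) : y ∈ Y :=
  (mem_of_sep h).2 (Or.inr (Or.inl rfl))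

/-- every part `A` of the side `P` without edges to `P - A` has neighbours `x` and `y` -/
theorem nb_part (hT : TCY E Y) {x y : V} {P Q : Finset V} (h : Sep E Y x y P Q) {A : Finset V}
    (hA : A.Nonempty) (hAP : A ⊆ P) (hc : ∀ a ∈ A, ∀ b ∈ P, b ∉ A → s(a, b) ∉ E) :
    ∃ a ∈ A, s(a, x) ∈ E := by
  by_contra hcon
  push Not at hcon
  refine no_cut hT (y_mem h) hA (hAP.trans (sub_side h)) (fun h1 => h.yP (hAP h1)) ?_ (x_mem h)
    h.ne (fun h1 => h.xP (hAP h1))
  intro a ha b hab
  rcases nb_side hT h (hAP ha) hab with h1 | h1 | h1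
  · rw [h1] at hab
    exact absurd hab (hcon a ha)
  · exact Or.inr h1
  · left
    by_contra hbA
    exact hc a ha b h1 hbA hab

/-- the closed side `Q + x + y` is connected -/
theorem closed_conn (hT : TCY E Y) {x y : V} {P Q : Finset V} (h : Sep E Y x y P Q)
    {A B : Finset V} (hxA : x ∈ A) (hyB : y ∈ B) (hQ : Q ⊆ A ∪ B) (hAB : Disjoint A B)
    (hn : ∀ a ∈ A, ∀ b ∈ B, s(a, b) ∉ E) : False := by
  obtain ⟨q, hq⟩ := h.Q0
  have hs := h.symm
  rcases mem_union.1 (hQ hq) with h1 | h1
  · obtain ⟨a, ha, hay⟩ := nb_part hT hs.flip (A := Q.filter (· ∈ A)) ⟨q, mem_filter.2 ⟨hq, h1⟩⟩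
      (filter_subset _ _) (by
        intro a ha b hb hbA hab
        rw [mem_filter] at ha hbA
        rcases mem_union.1 (hQ hb) with h2 | h2
        · exact hbA ⟨hb, h2⟩
        · exact hn a ha.2 b h2 hab)
    exact hn a (mem_filter.1 ha).2 y hyB hay
  · obtain ⟨a, ha, hax⟩ := nb_part hT hs (A := Q.filter (· ∈ B)) ⟨q, mem_filter.2 ⟨hq, h1⟩⟩
      (filter_subset _ _) (by
        intro a ha b hb hbA hab
        rw [mem_filter] at ha hbA
        rcases mem_union.1 (hQ hb) with h2 | h2
        · rw [Sym2.eq_swap] at hab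
          exact hn b h2 a ha.2 hab
        · exact hbA ⟨hb, h2⟩)
    rw [Sym2.eq_swap] at hax
    exact hn x hxA a (mem_filter.1 ha).2 hax

end basic

section ring

variable {E : Finset (Sym2 V)} {Y : Finset V}

/-- some path through the side `P` -/
theorem base_path (hT : TCY E Y) {x y : V} {P Q : Finset V} (h : Sep E Y x y P Q) :
    ∃ p : (SimpleGraph.fromEdgeSet (E : Set (Sym2 V))).Walk x y, p.IsPath ∧
      ∀ v ∈ p.support, v = x ∨ v = y ∨ v ∈ P := by
  classical
  -- the vertices of `P` reachable from `x` inside `P`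
  set G := SimpleGraph.fromEdgeSet (E : Set (Sym2 V)) with hG
  have hadj : ∀ {a b : V}, s(a, b) ∈ E → G.Adj a b := by
    intro a b hab
    rw [hG, SimpleGraph.fromEdgeSet_adj]
    refine ⟨by exact_mod_cast hab, ?_⟩
    rintro rfl
    exact hT.loop _ hab (by simp)
  set A := P.filter fun a => ∃ p : G.Walk x a, ∀ v ∈ p.support, v = x ∨ v ∈ P with hA
  have hA0 : A.Nonempty := by
    obtain ⟨a, ha, hax⟩ := nb_part hT h h.P0 (Subset.refl _) (fun _ _ b hb hbP => absurd hb hbP)
    refine ⟨a, mem_filter.2 ⟨ha, SimpleGraph.Walk.cons (hadj (by rw [Sym2.eq_swap]; exact hax))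
      SimpleGraph.Walk.nil, ?_⟩⟩
    intro v hv
    rw [SimpleGraph.Walk.support_cons, SimpleGraph.Walk.support_nil, List.mem_cons,
      List.mem_singleton] at hv
    rcases hv with h1 | h1
    · exact Or.inl h1
    · rw [h1]
      exact Or.inr ha
  obtain ⟨a, ha, hay⟩ := nb_part hT h.flip (A := A) hA0 (filter_subset _ _) (by
    intro a ha b hb hbA hab
    obtain ⟨haP, p, hp⟩ := mem_filter.1 ha
    apply hbA
    refine mem_filter.2 ⟨hb, p.concat (hadj hab), ?_⟩
    intro v hv
    rw [SimpleGraph.Walk.support_concat] at hv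
    have hv' : v ∈ p.support ∨ v = b := by simpa using hv
    rcases hv' with h1 | h1
    · exact hp v h1
    · rw [h1]
      exact Or.inr hb)
  obtain ⟨haP, p, hp⟩ := mem_filter.1 ha
  refine ⟨(p.concat (hadj hay)).bypass, SimpleGraph.Walk.bypass_isPath _, ?_⟩
  intro v hv
  have hv1 := SimpleGraph.Walk.support_bypass_subset_support _ hv
  rw [SimpleGraph.Walk.support_concat] at hv1
  have hv' : v ∈ p.support ∨ v = y := by simpa using hv1
  rcases hv' with h1 | h1
  · rcases hp v h1 with h2 | h2
    · exact Or.inl h2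
    · exact Or.inr (Or.inr h2)
  · exact Or.inr (Or.inl h1)

/-- the statement of the ring lemma for the side `P` -/
def Thr (E : Finset (Sym2 V)) (N : Finset V) (x y : V) (P : Finset V) : Prop :=
  ∃ p : (SimpleGraph.fromEdgeSet (E : Set (Sym2 V))).Walk x y, p.IsPath ∧
    (∀ v ∈ p.support, v = x ∨ v = y ∨ v ∈ P) ∧ ∀ v ∈ N, v ∈ P → v ∈ p.support

theorem Thr.rev {E : Finset (Sym2 V)} {N : Finset V} {x y : V} {P : Finset V}
    (h : Thr E N x y P) : Thr E N y x P := by
  obtain ⟨p, hp, h1, h2⟩ := h
  refine ⟨p.reverse, hp.reverse, ?_, ?_⟩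
  · intro v hv
    rw [SimpleGraph.Walk.support_reverse, List.mem_reverse] at hv
    rcases h1 v hv with h3 | h3 | h3
    · exact Or.inr (Or.inl h3)
    · exact Or.inl h3
    · exact Or.inr (Or.inr h3)
  · intro v hv hvP
    rw [SimpleGraph.Walk.support_reverse, List.mem_reverse]
    exact h2 v hv hvP

/-- first half of a crossed side -/
theorem half (hT : TCY E Y) {N : Finset V} {n : ℕ}
    (IH : ∀ x y P Q, P.card ≤ n → Sep E Y x y P Q → (∃ w ∈ N, w ∈ Q) → Thr E N x y P)
    {x y : V} {P Q : Finset V} (hn : P.card ≤ n + 1) (h : Sep E Y x y P Q)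
    (hQ : ∃ w ∈ N, w ∈ Q) {u v : V} {P' Q' : Finset V} (h' : Sep E Y u v P' Q')
    (hx : x ∈ P') (hy : y ∈ Q') (hu : u ∈ P) (hv : v ∈ Q) : Thr E N x u (P.filter (· ∈ P')) := by
  classical
  have hxu : x ≠ u := by
    rintro rfl
    exact h.xP hu
  -- edges leaving the part
  have hout : ∀ a ∈ P.filter (· ∈ P'), ∀ b, s(a, b) ∈ E →
      b = x ∨ b = u ∨ b ∈ P.filter (· ∈ P') := by
    intro a ha b hab
    obtain ⟨h1, h2⟩ := mem_filter.1 ha
    rcases nb_side hT h' h2 hab with h4 | h4 | h4
    · exact Or.inr (Or.inl h4)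
    · rw [h4] at hab
      exact absurd hab (h.noE a h1 v hv)
    · rcases nb_side hT h h1 hab with h3 | h3 | h3
      · exact Or.inl h3
      · rw [h3] at h4
        exact absurd hy (disjoint_left.1 h'.dis h4)
      · exact Or.inr (Or.inr (mem_filter.2 ⟨h3, h4⟩))
  by_cases hP : (P.filter (· ∈ P')).Nonempty
  · have hcard : (P.filter (· ∈ P')).card < P.card := by
      apply card_lt_card
      rw [ssubset_iff_of_subset (filter_subset _ _)]
      exact ⟨u, hu, fun h1 => h'.xP (mem_filter.1 h1).2⟩
    have hsep : Sep E Y x u (P.filter (· ∈ P'))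
        (((Y.erase x).erase u) \ P.filter (· ∈ P')) := by
      refine ⟨hxu, ?_, ?_, ?_, ?_, hP, ?_, disjoint_sdiff, ?_, ?_⟩
      · exact fun h1 => h.xP (mem_filter.1 h1).1
      · intro h1
        rw [mem_sdiff, mem_erase, mem_erase] at h1
        exact h1.1.2.1 rfl
      · exact fun h1 => h'.xP (mem_filter.1 h1).2
      · intro h1
        rw [mem_sdiff, mem_erase] at h1
        exact h1.1.1 rfl
      · refine ⟨v, ?_⟩
        rw [mem_sdiff, mem_erase, mem_erase]
        refine ⟨⟨fun h1 => h'.ne h1.symm, fun h1 => h.xQ (h1 ▸ hv), y_mem h'⟩, ?_⟩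
        intro h1
        exact h'.yP (mem_filter.1 h1).2
      · ext t
        simp only [mem_insert, mem_union, mem_sdiff, mem_erase]
        constructor
        · rintro (h1 | h1 | h1 | h1)
          · rw [h1]; exact x_mem h
          · rw [h1]; exact x_mem h'
          · exact sub_side h (mem_filter.1 h1).1
          · exact h1.1.2.2
        · intro h1
          by_cases h2 : t = x
          · exact Or.inl h2
          by_cases h3 : t = u
          · exact Or.inr (Or.inl h3)
          by_cases h4 : t ∈ P.filter (· ∈ P')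
          · exact Or.inr (Or.inr (Or.inl h4))
          · exact Or.inr (Or.inr (Or.inr ⟨⟨h3, h2, h1⟩, h4⟩))
      · intro a ha b hb hab
        rw [mem_sdiff, mem_erase, mem_erase] at hb
        rcases hout a ha b hab with h1 | h1 | h1
        · exact hb.1.2.1 h1
        · exact hb.1.1 h1
        · exact hb.2 h1
    refine IH x u _ _ (by omega) hsep ?_
    obtain ⟨w, hw, hwQ⟩ := hQ
    refine ⟨w, hw, ?_⟩
    rw [mem_sdiff, mem_erase, mem_erase]
    refine ⟨⟨?_, ?_, sub_side h.symm hwQ⟩, ?_⟩
    · rintro rfl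
      exact disjoint_left.1 h.dis hu hwQ
    · rintro rfl
      exact h.xQ hwQ
    · intro h1
      exact disjoint_left.1 h.dis (mem_filter.1 h1).1 hwQ
  · rw [not_nonempty_iff_eq_empty] at hP
    have hxuE : s(x, u) ∈ E := by
      by_contra hcon
      refine no_cut hT (y_mem h') (A := P') ⟨x, hx⟩ (sub_side h') h'.yP ?_ (x_mem h') h'.ne h'.xP
      intro a ha b hab
      rcases nb_side hT h' ha hab with h1 | h1 | h1
      · exfalso
        rw [h1] at hab
        rcases (mem_of_sep h).1 (sub_side h' ha) with h2 | h2 | h2 | h2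
        · rw [h2] at hab
          exact hcon hab
        · rw [h2] at ha
          exact disjoint_left.1 h'.dis ha hy
        · have : a ∈ P.filter (· ∈ P') := mem_filter.2 ⟨h2, ha⟩
          rw [hP] at this
          exact notMem_empty _ this
        · rw [Sym2.eq_swap] at hab
          exact h.noE u hu a h2 hab
      · exact Or.inr h1
      · exact Or.inl h1
    have hadj : (SimpleGraph.fromEdgeSet (E : Set (Sym2 V))).Adj x u := by
      rw [SimpleGraph.fromEdgeSet_adj]
      exact ⟨by exact_mod_cast hxuE, hxu⟩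
    refine ⟨SimpleGraph.Walk.cons hadj SimpleGraph.Walk.nil, ?_, ?_, ?_⟩
    · rw [SimpleGraph.Walk.cons_isPath_iff]
      refine ⟨SimpleGraph.Walk.IsPath.nil, ?_⟩
      rw [SimpleGraph.Walk.support_nil, List.mem_singleton]
      exact hxu
    · intro w hw
      rw [SimpleGraph.Walk.support_cons, SimpleGraph.Walk.support_nil, List.mem_cons,
        List.mem_singleton] at hw
      rcases hw with h1 | h1
      · exact Or.inl h1
      · exact Or.inr (Or.inl h1)
    · intro w _ hw
      rw [hP] at hw
      exact absurd hw (notMem_empty _)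

/-- RING LEMMA: if all the separations which separate `N` are crossed, there is a path through
`N ∩ P` in a side `P`. -/
theorem ring (hT : TCY E Y) {N : Finset V}
    (hcr : ∀ x y P Q, Sep E Y x y P Q → (∃ w ∈ N, w ∈ P) → (∃ w ∈ N, w ∈ Q) → ¬ Unc E Y x y) :
    ∀ (n : ℕ) (x y : V) (P Q : Finset V), P.card ≤ n → Sep E Y x y P Q → (∃ w ∈ N, w ∈ Q) →
      Thr E N x y P := by
  intro n
  induction n with
  | zero =>
    intro x y P Q hn h _
    have h0 : P.card = 0 := by omega
    rw [card_eq_zero] at h0
    exact absurd h.P0 (by rw [h0]; exact not_nonempty_empty)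
  | succ n ih =>
    intro x y P Q hn h hQ
    by_cases hP : ∃ w ∈ N, w ∈ P
    swap
    · obtain ⟨p, hp, h1⟩ := base_path hT h
      exact ⟨p, hp, h1, fun v hv hvP => absurd ⟨v, hv, hvP⟩ hP⟩
    have hun := hcr x y P Q h hP hQ
    unfold Unc at hun
    push Not at hun
    obtain ⟨u, v, P', Q', h', hx, hy⟩ := hun
    -- main step when `u ∈ P` and `v ∈ Q`
    have main : ∀ u v, Sep E Y u v P' Q' → u ∈ P → v ∈ Q → Thr E N x y P := by
      intro u v h' hu hv
      obtain ⟨p, hp, hp1, hp2⟩ := half hT ih hn h hQ h' hx hy hu hv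
      obtain ⟨q, hq, hq1, hq2⟩ := (half hT ih hn h.flip hQ h'.symm hy hx hu hv).rev
      have hxy := h.ne
      refine ⟨p.append q, path_append p q hp hq ?_, ?_, ?_⟩
      · intro w hw hw'
        rcases hp1 w hw with h1 | h1 | h1
        · exfalso
          rw [h1] at hw'
          rcases hq1 x hw' with h2 | h2 | h2
          · rw [← h2] at hu
            exact h.xP hu
          · exact hxy h2
          · exact h.xP (mem_filter.1 h2).1
        · exact h1
        · rcases hq1 w hw' with h2 | h2 | h2
          · exact h2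
          · exfalso
            rw [h2] at h1
            exact h.yP (mem_filter.1 h1).1
          · exfalso
            exact disjoint_left.1 h'.dis (mem_filter.1 h1).2 (mem_filter.1 h2).2
      · intro w hw
        rw [SimpleGraph.Walk.mem_support_append_iff] at hw
        rcases hw with hw | hw
        · rcases hp1 w hw with h1 | h1 | h1
          · exact Or.inl h1
          · rw [h1]; exact Or.inr (Or.inr hu)
          · exact Or.inr (Or.inr (mem_filter.1 h1).1)
        · rcases hq1 w hw with h1 | h1 | h1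
          · rw [h1]; exact Or.inr (Or.inr hu)
          · exact Or.inr (Or.inl h1)
          · exact Or.inr (Or.inr (mem_filter.1 h1).1)
      · intro w hw hwP
        rw [SimpleGraph.Walk.mem_support_append_iff]
        rcases (mem_of_sep h').1 (sub_side h hwP) with h1 | h1 | h1 | h1
        · left
          rw [h1]
          exact p.end_mem_support
        · exfalso
          rw [h1] at hwP
          exact disjoint_left.1 h.dis hwP hv
        · left
          exact hp2 w hw (mem_filter.2 ⟨hwP, h1⟩)
        · right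
          exact hq2 w hw (mem_filter.2 ⟨hwP, h1⟩)
    have hux : u ≠ x := by
      rintro rfl
      exact h'.xP hx
    have huy : u ≠ y := by
      rintro rfl
      exact h'.xQ hy
    have hvx : v ≠ x := by
      rintro rfl
      exact h'.yP hx
    have hvy : v ≠ y := by
      rintro rfl
      exact h'.yQ hy
    -- a side without `u`, `v` is impossible
    have key : ∀ P Q, Sep E Y x y P Q → u ∈ P → v ∈ P → False := by
      intro P Q h hu hv
      refine closed_conn hT h (A := P') (B := Q') hx hy ?_ h'.dis h'.noE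
      intro w hw
      rcases (mem_of_sep h').1 (sub_side h.symm hw) with h1 | h1 | h1 | h1
      · rw [h1] at hw
        exact absurd hw (disjoint_left.1 h.dis hu)
      · rw [h1] at hw
        exact absurd hw (disjoint_left.1 h.dis hv)
      · exact mem_union_left _ h1
      · exact mem_union_right _ h1
    rcases (mem_of_sep h).1 (x_mem h') with h1 | h1 | h1 | h1
    · exact absurd h1 hux
    · exact absurd h1 huy
    · rcases (mem_of_sep h).1 (y_mem h') with h2 | h2 | h2 | h2
      · exact absurd h2 hvx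
      · exact absurd h2 hvy
      · exact (key P Q h h1 h2).elim
      · exact main u v h' h1 h2
    · rcases (mem_of_sep h).1 (y_mem h') with h2 | h2 | h2 | h2
      · exact absurd h2 hvx
      · exact absurd h2 hvy
      · exact main v u h'.flip h2 h1
      · exact (key Q P h.symm h1 h2).elim

end ring

end H40T
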