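import Pool.Agent.Lib.H91P.C1

/-! Exchange lemma for sets covered by vertex-disjoint cycles of length at least 4 (toggling walk
without triangles, after `Lib/H91P/C1.lean`). -/

namespace H40T

open Finset H91P

variable {V : Type*} [DecidableEq V]

/-- no triangle -/
def TF (E : Finset (Sym2 V)) : Prop := ∀ x y z, s(x, y) ∈ E → s(y, z) ∈ E → s(x, z) ∉ E

omit [DecidableEq V] in
theorem TF.mono {E F : Finset (Sym2 V)} (h : TF F) (hEF : E ⊆ F) : TF E :=
  fun x y z h1 h2 h3 => h x y z (hEF h1) (hEF h2) (hEF h3)

/-- inserting an edge `wu` which is in no triangle -/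
theorem TF.insert {E : Finset (Sym2 V)} (h : TF E) {w u : V} (hwu : w ≠ u)
    (hl : ∀ v, s(v, v) ∉ E) (hz : ∀ z, s(w, z) ∈ E → s(z, u) ∉ E) : TF (insert s(w, u) E) := by
  have key : ∀ x y z, (s(x, y) = s(w, u)) → s(y, z) ∈ E → s(x, z) ∈ E → False := by
    intro x y z h1 h2 h3
    rcases Sym2.eq_iff.1 h1 with ⟨rfl, rfl⟩ | ⟨rfl, rfl⟩
    · exact hz z h3 (by rw [Sym2.eq_swap]; exact h2)
    · exact hz z h2 (by rw [Sym2.eq_swap]; exact h3)
  have key2 : ∀ x y z, s(x, y) = s(w, u) → s(y, z) = s(w, u) → s(x, z) ∈ E → False := by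
    intro x y z h1 h2 h3
    have : x = z := by
      rcases Sym2.eq_iff.1 h1 with ⟨h4, h5⟩ | ⟨h4, h5⟩ <;>
        rcases Sym2.eq_iff.1 h2 with ⟨h6, h7⟩ | ⟨h6, h7⟩
      · exact absurd (h6.symm.trans h5) hwu
      · exact h4.trans h7.symm
      · exact h4.trans h7.symm
      · exact absurd (h5.symm.trans h6) hwu
    subst this
    exact hl x h3
  intro x y z h1 h2 h3
  rw [mem_insert] at h1 h2 h3
  rcases h1 with h1 | h1 <;> rcases h2 with h2 | h2 <;> rcases h3 with h3 | h3
  · have : x = z := by
      rcases Sym2.eq_iff.1 h1 with ⟨h4, h5⟩ | ⟨h4, h5⟩ <;>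
        rcases Sym2.eq_iff.1 h2 with ⟨h6, h7⟩ | ⟨h6, h7⟩
      · exact absurd (h6.symm.trans h5) hwu
      · exact h4.trans h7.symm
      · exact h4.trans h7.symm
      · exact absurd (h5.symm.trans h6) hwu
    subst this
    rcases Sym2.eq_iff.1 h3 with ⟨h4, h5⟩ | ⟨h4, h5⟩
    · exact hwu (h4.symm.trans h5)
    · exact hwu (h5.symm.trans h4)
  · exact key2 x y z h1 h2 h3
  · exact key2 y x z (by rw [Sym2.eq_swap]; exact h1) h3 h2
  · exact key x y z h1 h2 h3
  · exact key2 x z y h3 (by rw [Sym2.eq_swap]; exact h2) h1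
  · exact key y z x h2 (by rw [Sym2.eq_swap]; exact h3) (by rw [Sym2.eq_swap]; exact h1)
  · exact key x z y h3 (by rw [Sym2.eq_swap]; exact h2) h1
  · exact h x y z h1 h2 h3

/-- a vertex of degree one has one neighbour -/
theorem nb_unique {E : Finset (Sym2 V)} {w x y : V} (h : dg E w = 1) (hx : s(w, x) ∈ E)
    (hy : s(w, y) ∈ E) : x = y := by
  unfold dg at h
  rw [card_eq_one] at h
  obtain ⟨e, he⟩ := h
  have h1 : s(w, x) ∈ E.filter (fun e => w ∈ e) := mem_filter.2 ⟨hx, Sym2.mem_mk_left w x⟩
  have h2 : s(w, y) ∈ E.filter (fun e => w ∈ e) := mem_filter.2 ⟨hy, Sym2.mem_mk_left w y⟩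
  rw [he, mem_singleton] at h1 h2
  exact Sym2.congr_right.1 (h1.trans h2.symm)

/-- three different neighbours -/
theorem three_le {E : Finset (Sym2 V)} {w x y z : V} (hx : s(w, x) ∈ E) (hy : s(w, y) ∈ E)
    (hz : s(w, z) ∈ E) (hxy : x ≠ y) (hxz : x ≠ z) (hyz : y ≠ z) : 3 ≤ dg E w := by
  have hsub : ({s(w, x), s(w, y), s(w, z)} : Finset (Sym2 V)) ⊆ E.filter (fun e => w ∈ e) := by
    intro e he
    rw [mem_insert, mem_insert, mem_singleton] at he
    rcases he with rfl | rfl | rfl
    · exact mem_filter.2 ⟨hx, Sym2.mem_mk_left _ _⟩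
    · exact mem_filter.2 ⟨hy, Sym2.mem_mk_left _ _⟩
    · exact mem_filter.2 ⟨hz, Sym2.mem_mk_left _ _⟩
  have := card_le_card hsub
  rw [card_insert_of_notMem, card_insert_of_notMem, card_singleton] at this
  · exact this
  · rw [mem_singleton]
    exact fun h => hyz (Sym2.congr_right.1 h)
  · rw [mem_insert, mem_singleton, not_or]
    exact ⟨fun h => hxy (Sym2.congr_right.1 h), fun h => hxz (Sym2.congr_right.1 h)⟩

/-- two different neighbours -/
theorem two_nb {E : Finset (Sym2 V)} {w : V} (h : dg E w = 2) :
    ∃ x y, x ≠ y ∧ s(w, x) ∈ E ∧ s(w, y) ∈ E := by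
  unfold dg at h
  rw [card_eq_two] at h
  obtain ⟨e, f, hef, he⟩ := h
  have h1 : e ∈ E.filter (fun e => w ∈ e) := by
    rw [he]
    simp
  have h2 : f ∈ E.filter (fun e => w ∈ e) := by
    rw [he]
    simp
  obtain ⟨h1, h3⟩ := mem_filter.1 h1
  obtain ⟨h2, h4⟩ := mem_filter.1 h2
  obtain ⟨x, rfl⟩ := Sym2.mem_iff_exists.1 h3
  obtain ⟨y, rfl⟩ := Sym2.mem_iff_exists.1 h4
  exact ⟨x, y, fun h => hef (by rw [h]), h1, h2⟩

section walk

variable {F1 F2 : Finset (Sym2 V)} {A : Finset V} {b d : V}

/-- the choice of the edge to insert -/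
theorem choice {H F2 : Finset (Sym2 V)} {w : V} (hw : dg H w = 1) (hw2 : dg F2 w = 2)
    (hall : ∀ v, v ≠ w → dg H v ≤ 2) (hl : ∀ v, s(v, v) ∉ H) (hl2 : ∀ v, s(v, v) ∉ F2) :
    ∃ u, s(w, u) ∈ F2 ∧ s(w, u) ∉ H ∧ ∀ z, s(w, z) ∈ H → s(z, u) ∈ H → s(w, z) ∈ F2 := by
  obtain ⟨y, hy, -⟩ := exists_edge (E := H) (F := ∅) (v := w) (by
    have h0 : dg (∅ : Finset (Sym2 V)) w = 0 := by simp [dg]
    omega)
  by_cases hy2 : s(w, y) ∈ F2
  · obtain ⟨u, hu2, hu⟩ := exists_edge (E := F2) (F := H) (v := w) (by omega)
    refine ⟨u, hu2, hu, ?_⟩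
    intro z hz _
    rw [nb_unique hw hz hy]
    exact hy2
  · obtain ⟨u1, u2, h12, h1, h2⟩ := two_nb hw2
    have hn1 : s(w, u1) ∉ H := fun h => hy2 (by rw [← nb_unique hw h hy]; exact h1)
    have hn2 : s(w, u2) ∉ H := fun h => hy2 (by rw [← nb_unique hw h hy]; exact h2)
    by_cases hc : s(y, u1) ∈ H
    · refine ⟨u2, h2, hn2, ?_⟩
      intro z hz hz2
      exfalso
      rw [nb_unique hw hz hy] at hz2
      have hyw : y ≠ w := by
        rintro rfl
        exact hl _ hy
      have h3 := three_le (E := H) (w := y) (x := w) (y := u1) (z := u2)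
        (by rw [Sym2.eq_swap]; exact hy) hc hz2 (by rintro rfl; exact hl2 _ h1)
        (by rintro rfl; exact hl2 _ h2) h12
      have := hall y hyw
      omega
    · refine ⟨u1, h1, hn1, ?_⟩
      intro z hz hz1
      exfalso
      rw [nb_unique hw hz hy] at hz1
      exact hc hz1

/-- the toggling walk -/
theorem walk (hl : ∀ v, s(v, v) ∉ F1 ∪ F2) (hbd : b ≠ d) (hT2 : TF F2)
    (h2 : ∀ v, dg F2 v = 0 ∨ dg F2 v = 2) (h2A : ∀ v ∈ A, dg F2 v = 2)
    (h2b : dg F2 b = 0) (h1d : dg F1 d = 0) :
    ∀ (N : ℕ) (H : Finset (Sym2 V)) (w : V), (symmDiff H F2).card ≤ N → H ⊆ F1 ∪ F2 →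
      w ≠ d → w ≠ b → dg H d = 1 → (dg H w = 1 ∨ dg H w = 3) → (dg H w = 3 → dg F2 w = 2) →
      dg H b = 2 → (∀ v, v ≠ w → v ≠ d → dg H v = 0 ∨ dg H v = 2) →
      (∀ v ∈ A, v ≠ w → dg H v = 2) → (dg H w = 1 → TF H) →
      (dg H w = 3 → ∃ y, s(w, y) ∈ H ∧ s(w, y) ∉ F2 ∧ TF (H.erase s(w, y))) →
      ∃ K : Finset (Sym2 V), K ⊆ F1 ∪ F2 ∧ TF K ∧
        (((∀ v, dg K v = 0 ∨ dg K v = 2) ∧ (∀ v ∈ A, dg K v = 2) ∧ dg K b = 2 ∧ dg K d = 2) ∨
         (dg K b = 1 ∧ dg K d = 1 ∧ (∀ v, v ≠ b → v ≠ d → dg K v = 0 ∨ dg K v = 2) ∧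
          (∀ v ∈ A, v ≠ b → dg K v = 2))) := by
  intro N
  induction N with
  | zero =>
    intro H w hN hH hwd hwb hd hw hw3 hb hall hA _ _
    have : H = F2 := by
      have h0 : (symmDiff H F2).card = 0 := by omega
      rw [card_eq_zero] at h0
      exact symmDiff_eq_bot.1 h0
    subst this
    rcases h2 w with h | h <;> omega
  | succ N ih =>
    intro H w hN hH hwd hwb hd hw hw3 hb hall hA hTH1 hTH3
    -- erase an edge of H - F2 at w
    have erase_step : ∀ u, s(w, u) ∈ H → s(w, u) ∉ F2 → TF (H.erase s(w, u)) →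
        (dg H w = 3 ∨ (dg H w = 1 ∧ w ∉ A)) →
        ∃ K : Finset (Sym2 V), K ⊆ F1 ∪ F2 ∧ TF K ∧
        (((∀ v, dg K v = 0 ∨ dg K v = 2) ∧ (∀ v ∈ A, dg K v = 2) ∧ dg K b = 2 ∧ dg K d = 2) ∨
         (dg K b = 1 ∧ dg K d = 1 ∧ (∀ v, v ≠ b → v ≠ d → dg K v = 0 ∨ dg K v = 2) ∧
          (∀ v ∈ A, v ≠ b → dg K v = 2))) := by
      intro u hu hu2 hTe hc
      have huw : u ≠ w := by
        rintro rfl
        exact hl _ (hH hu)
      have hud : u ≠ d := by
        rintro rfl
        have h1 : s(w, u) ∈ F1 := by
          rcases mem_union.1 (hH hu) with h | h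
          · exact h
          · exact absurd h hu2
        have := dg_pos h1 (Sym2.mem_mk_right w u)
        omega
      have hwe : dg (H.erase s(w, u)) w + 1 = dg H w := dg_erase_mem hu (Sym2.mem_mk_left w u)
      have hue : dg (H.erase s(w, u)) u + 1 = dg H u := dg_erase_mem hu (Sym2.mem_mk_right w u)
      have hoe : ∀ v, v ≠ w → v ≠ u → dg (H.erase s(w, u)) v = dg H v := by
        intro v h1 h3
        apply dg_erase_not hu
        simp [Sym2.mem_iff, h1, h3]
      have hsub : H.erase s(w, u) ⊆ F1 ∪ F2 := (erase_subset _ _).trans hH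
      by_cases hub : u = b
      · subst hub
        refine ⟨H.erase s(w, u), hsub, hTe, Or.inr ⟨by omega, ?_, ?_, ?_⟩⟩
        · rw [hoe d (Ne.symm hwd) (Ne.symm hud)]
          exact hd
        · intro v h1 h3
          by_cases hvw : v = w
          · subst hvw
            rcases hc with hc | hc
            · right; omega
            · left; omega
          · rw [hoe v hvw h1]
            exact hall v hvw h3
        · intro v hvA h1
          by_cases hvw : v = w
          · subst hvw
            rcases hc with hc | hc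
            · omega
            · exact absurd hvA hc.2
          · rw [hoe v hvw h1]
            exact hA v hvA hvw
      · have hu2' : dg H u = 2 := by
          rcases hall u huw hud with h | h
          · omega
          · exact h
        refine ih (H.erase s(w, u)) u ?_ hsub hud hub ?_ (Or.inl (by omega)) (by omega) ?_ ?_ ?_
          (fun _ => hTe) (by omega)
        · have hss : symmDiff (H.erase s(w, u)) F2 ⊂ symmDiff H F2 := by
            rw [ssubset_iff_of_subset]
            · refine ⟨s(w, u), ?_, ?_⟩
              · rw [mem_symmDiff]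
                exact Or.inl ⟨hu, hu2⟩
              · rw [mem_symmDiff]
                rintro (⟨h, -⟩ | ⟨h, -⟩)
                · exact notMem_erase _ _ h
                · exact hu2 h
            · intro e he
              rw [mem_symmDiff] at he ⊢
              rcases he with ⟨h1, h3⟩ | ⟨h1, h3⟩
              · exact Or.inl ⟨mem_of_mem_erase h1, h3⟩
              · refine Or.inr ⟨h1, ?_⟩
                intro h4
                apply h3
                rw [mem_erase]
                refine ⟨?_, h4⟩
                rintro rfl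
                exact hu2 h1
          have := card_lt_card hss
          omega
        · rw [hoe d (Ne.symm hwd) (Ne.symm hud)]
          exact hd
        · rw [hoe b (Ne.symm hwb) (Ne.symm hub)]
          exact hb
        · intro v h1 h3
          by_cases hvw : v = w
          · subst hvw
            rcases hc with hc | hc
            · right; omega
            · left; omega
          · rw [hoe v hvw h1]
            exact hall v hvw h3
        · intro v hvA h1
          by_cases hvw : v = w
          · subst hvw
            rcases hc with hc | hc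
            · omega
            · exact absurd hvA hc.2
          · rw [hoe v hvw h1]
            exact hA v hvA hvw
    rcases hw with hw1 | hw3'
    · have hTH := hTH1 hw1
      rcases h2 w with h20 | h22
      · -- degree 1, target 0
        obtain ⟨u, hu, -⟩ := exists_edge (E := H) (F := ∅) (v := w) (by
          have h0 : dg (∅ : Finset (Sym2 V)) w = 0 := by simp [dg]
          omega)
        have hu2 : s(w, u) ∉ F2 := by
          intro h
          have := dg_pos h (Sym2.mem_mk_left w u)
          omega
        refine erase_step u hu hu2 (hTH.mono (erase_subset _ _)) (Or.inr ⟨hw1, ?_⟩)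
        intro hwA
        have := h2A w hwA
        omega
      · -- degree 1, target 2: insert
        obtain ⟨u, hu2, hu, hch⟩ := choice (H := H) (F2 := F2) hw1 h22 (by
            intro v hvw
            by_cases hvd : v = d
            · subst hvd; omega
            · rcases hall v hvw hvd with h | h <;> omega) (fun v h => hl v (hH h))
            (fun v h => hl v (mem_union_right _ h))
        have huw : u ≠ w := by
          rintro rfl
          exact hl _ (mem_union_right _ hu2)
        have hub : u ≠ b := by
          rintro rfl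
          have := dg_pos hu2 (Sym2.mem_mk_right w u)
          omega
        have hwe : dg (insert s(w, u) H) w = dg H w + 1 := dg_insert_mem hu (Sym2.mem_mk_left w u)
        have hue : dg (insert s(w, u) H) u = dg H u + 1 := dg_insert_mem hu (Sym2.mem_mk_right w u)
        have hoe : ∀ v, v ≠ w → v ≠ u → dg (insert s(w, u) H) v = dg H v := by
          intro v h1 h3
          apply dg_insert_not
          simp [Sym2.mem_iff, h1, h3]
        have hsub : insert s(w, u) H ⊆ F1 ∪ F2 := by
          intro e he
          rcases mem_insert.1 he with h | h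
          · rw [h]; exact mem_union_right _ hu2
          · exact hH h
        have hlH : ∀ v, s(v, v) ∉ H := fun v h => hl v (hH h)
        by_cases hud : u = d
        · subst hud
          have hTi : TF (insert s(w, u) H) := by
            refine hTH.insert (Ne.symm huw) hlH ?_
            intro z hz hz2
            have h3 := hch z hz hz2
            have h4 : s(z, u) ∈ F2 := by
              rcases mem_union.1 (hH hz2) with h | h
              · have := dg_pos h (Sym2.mem_mk_right z u)
                omega
              · exact h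
            exact hT2 w z u h3 h4 hu2
          refine ⟨insert s(w, u) H, hsub, hTi, Or.inl ⟨?_, ?_, ?_, by omega⟩⟩
          · intro v
            by_cases hvw : v = w
            · subst hvw; right; omega
            · by_cases hvu : v = u
              · subst hvu; right; omega
              · rw [hoe v hvw hvu]
                exact hall v hvw hvu
          · intro v hvA
            by_cases hvw : v = w
            · subst hvw; omega
            · by_cases hvu : v = u
              · subst hvu; omega
              · rw [hoe v hvw hvu]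
                exact hA v hvA hvw
          · rw [hoe b (Ne.symm hwb) hbd]
            exact hb
        · have hu22 : dg F2 u = 2 := by
            rcases h2 u with h | h
            · have := dg_pos hu2 (Sym2.mem_mk_right w u)
              omega
            · exact h
          have huH := hall u huw hud
          refine ih (insert s(w, u) H) u ?_ hsub hud hub ?_ (by omega) (fun _ => hu22) ?_ ?_ ?_ ?_ ?_
          · have hss : symmDiff (insert s(w, u) H) F2 ⊂ symmDiff H F2 := by
              rw [ssubset_iff_of_subset]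
              · refine ⟨s(w, u), ?_, ?_⟩
                · rw [mem_symmDiff]
                  exact Or.inr ⟨hu2, hu⟩
                · rw [mem_symmDiff]
                  rintro (⟨-, h⟩ | ⟨-, h⟩)
                  · exact h hu2
                  · exact h (mem_insert_self _ _)
              · intro e he
                rw [mem_symmDiff] at he ⊢
                rcases he with ⟨h1, h3⟩ | ⟨h1, h3⟩
                · rcases mem_insert.1 h1 with h | h
                  · subst h; exact absurd hu2 h3
                  · exact Or.inl ⟨h, h3⟩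
                · exact Or.inr ⟨h1, fun h4 => h3 (mem_insert_of_mem h4)⟩
            have := card_lt_card hss
            omega
          · rw [hoe d (Ne.symm hwd) (Ne.symm hud)]
            exact hd
          · rw [hoe b (Ne.symm hwb) (Ne.symm hub)]
            exact hb
          · intro v h1 h3
            by_cases hvw : v = w
            · subst hvw; right; omega
            · rw [hoe v hvw h1]
              exact hall v hvw h3
          · intro v hvA h1
            by_cases hvw : v = w
            · subst hvw; omega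
            · rw [hoe v hvw h1]
              exact hA v hvA hvw
          · -- degree of u is now 1: no triangle
            intro h3
            refine hTH.insert (Ne.symm huw) hlH ?_
            intro z _ hz2
            have := dg_pos hz2 (Sym2.mem_mk_right z u)
            omega
          · -- degree of u is now 3
            intro h3
            by_cases hz : ∃ z, s(w, z) ∈ H ∧ s(z, u) ∈ H
            · obtain ⟨z, hz1, hz2⟩ := hz
              have hz3 := hch z hz1 hz2
              have hzu : s(u, z) ≠ s(w, u) := by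
                intro h
                have h4 : s(u, z) ∈ H := by rw [Sym2.eq_swap]; exact hz2
                rw [h] at h4
                exact hu h4
              refine ⟨z, mem_insert_of_mem (by rw [Sym2.eq_swap]; exact hz2), ?_, ?_⟩
              · intro h
                exact hT2 w z u hz3 (by rw [Sym2.eq_swap]; exact h) hu2
              · rw [erase_insert_of_ne hzu.symm]
                refine (hTH.mono (erase_subset _ _)).insert (Ne.symm huw)
                  (fun v h => hlH v (mem_of_mem_erase h)) ?_
                intro t ht1 ht2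
                have htz : t = z := nb_unique hw1 (mem_of_mem_erase ht1) hz1
                subst htz
                rw [Sym2.eq_swap] at ht2
                exact notMem_erase _ _ ht2
            · push Not at hz
              have hTi : TF (insert s(w, u) H) := hTH.insert (Ne.symm huw) hlH hz
              obtain ⟨y, hy, hy2⟩ := exists_edge (E := insert s(w, u) H) (F := F2) (v := u)
                (by omega)
              exact ⟨y, hy, hy2, hTi.mono (erase_subset _ _)⟩
    · -- degree 3
      obtain ⟨u, hu, hu2, hTe⟩ := hTH3 hw3'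
      exact erase_step u hu hu2 hTe (Or.inl hw3')

/-- the whole toggling process -/
theorem toggle (hl : ∀ v, s(v, v) ∉ F1 ∪ F2) (hbd : b ≠ d) (hbA : b ∉ A) (hT1 : TF F1)
    (hT2 : TF F2) (h1 : ∀ v, dg F1 v = 0 ∨ dg F1 v = 2) (h1A : ∀ v ∈ A, dg F1 v = 2)
    (h1b : dg F1 b = 2) (h1d : dg F1 d = 0)
    (h2 : ∀ v, dg F2 v = 0 ∨ dg F2 v = 2) (h2A : ∀ v ∈ A, dg F2 v = 2) (h2d : dg F2 d = 2)
    (h2b : dg F2 b = 0) :
      ∃ K : Finset (Sym2 V), K ⊆ F1 ∪ F2 ∧ TF K ∧
        (((∀ v, dg K v = 0 ∨ dg K v = 2) ∧ (∀ v ∈ A, dg K v = 2) ∧ dg K b = 2 ∧ dg K d = 2) ∨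
         (dg K b = 1 ∧ dg K d = 1 ∧ (∀ v, v ≠ b → v ≠ d → dg K v = 0 ∨ dg K v = 2) ∧
          (∀ v ∈ A, dg K v = 2))) := by
  obtain ⟨u, hu2, hu⟩ := exists_edge (E := F2) (F := F1) (v := d) (by omega)
  have hud : u ≠ d := by
    rintro rfl
    exact hl _ (mem_union_right _ hu2)
  have hub : u ≠ b := by
    rintro rfl
    have := dg_pos hu2 (Sym2.mem_mk_right d u)
    omega
  have hde : dg (insert s(d, u) F1) d = dg F1 d + 1 := dg_insert_mem hu (Sym2.mem_mk_left d u)
  have hue : dg (insert s(d, u) F1) u = dg F1 u + 1 := dg_insert_mem hu (Sym2.mem_mk_right d u)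
  have hoe : ∀ v, v ≠ d → v ≠ u → dg (insert s(d, u) F1) v = dg F1 v := by
    intro v h3 h4
    apply dg_insert_not
    simp [Sym2.mem_iff, h3, h4]
  have hu22 : dg F2 u = 2 := by
    rcases h2 u with h | h
    · have := dg_pos hu2 (Sym2.mem_mk_right d u)
      omega
    · exact h
  have hTi : TF (insert s(d, u) F1) := by
    refine hT1.insert (Ne.symm hud) (fun v h => hl v (mem_union_left _ h)) ?_
    intro z hz _
    have := dg_pos hz (Sym2.mem_mk_left d z)
    omega
  have hu1 := h1 u
  obtain ⟨K, hK, hTK, h⟩ := walk (F1 := F1) (F2 := F2) (A := A) (b := b) (d := d) hl hbd hT2 h2 h2A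
    h2b h1d _ (insert s(d, u) F1) u le_rfl (by
      intro e he
      rcases mem_insert.1 he with h | h
      · rw [h]; exact mem_union_right _ hu2
      · exact mem_union_left _ h) hud hub (by omega) (by omega) (fun _ => hu22)
    (by rw [hoe b hbd (Ne.symm hub)]; exact h1b)
    (by
      intro v h3 h4
      rw [hoe v h4 h3]
      exact h1 v)
    (by
      intro v hvA h3
      by_cases hvd : v = d
      · subst hvd
        have := h1A v hvA
        omega
      · rw [hoe v hvd h3]
        exact h1A v hvA)
    (fun _ => hTi)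
    (by
      intro h3
      obtain ⟨y, hy, hy2⟩ := exists_edge (E := insert s(d, u) F1) (F := F2) (v := u) (by omega)
      exact ⟨y, hy, hy2, hTi.mono (erase_subset _ _)⟩)
  refine ⟨K, hK, hTK, ?_⟩
  rcases h with h | ⟨h3, h4, h5, h6⟩
  · exact Or.inl h
  · exact Or.inr ⟨h3, h4, h5, fun v hv => h6 v hv (by rintro rfl; exact hbA hv)⟩

end walk

/-- closing with a path -/
theorem close (G : SimpleGraph V) {x y : V} (p : G.Walk x y) :
    p.IsPath → x ≠ y → ∀ H : Finset (Sym2 V), (∀ e ∈ H, e ∈ G.edgeSet) → TF H → dg H x = 1 →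
      dg H y = 1 → s(x, y) ∉ H → (G.Adj x y → ∀ z, s(x, z) ∈ H → s(z, y) ∉ H) →
      (∀ v, v ≠ x → v ≠ y → dg H v = 0 ∨ dg H v = 2) →
      (∀ v ∈ p.support, v ≠ x → v ≠ y → dg H v = 0) →
      ∃ F : Finset (Sym2 V), (∀ e ∈ F, e ∈ G.edgeSet) ∧ H ⊆ F ∧ TF F ∧
        (∀ v, dg F v = 0 ∨ dg F v = 2) ∧ dg F x = 2 ∧ dg F y = 2 := by
  induction p with
  | nil => intro _ h; exact absurd rfl h
  | @cons x z y hxz p ih =>
    intro hp hxy H hHG hTH hx hy hxyH hq hall hin
    rw [SimpleGraph.Walk.cons_isPath_iff] at hp
    obtain ⟨hp, hxp⟩ := hp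
    have hzx : z ≠ x := fun h => (hxz.ne h.symm)
    have hlH : ∀ v, s(v, v) ∉ H := fun v h => G.loopless.irrefl v (hHG _ h)
    by_cases hzy : z = y
    · subst hzy
      have hxe : dg (insert s(x, z) H) x = dg H x + 1 :=
        dg_insert_mem hxyH (Sym2.mem_mk_left x z)
      have hze : dg (insert s(x, z) H) z = dg H z + 1 :=
        dg_insert_mem hxyH (Sym2.mem_mk_right x z)
      refine ⟨insert s(x, z) H, ?_, subset_insert _ _, hTH.insert (Ne.symm hzx) hlH (hq hxz), ?_,
        by omega, by omega⟩
      · intro e he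
        rcases mem_insert.1 he with h | h
        · rw [h]; exact hxz
        · exact hHG e h
      · intro v
        by_cases hvx : v = x
        · subst hvx; right; omega
        · by_cases hvz : v = z
          · subst hvz; right; omega
          · rw [dg_insert_not (by simp [Sym2.mem_iff, hvx, hvz])]
            exact hall v hvx hvz
    · have hz0 : dg H z = 0 := hin z (by simp) hzx hzy
      have hxzH : s(x, z) ∉ H := by
        intro h
        have := dg_pos h (Sym2.mem_mk_right x z)
        omega
      have hxe : dg (insert s(x, z) H) x = dg H x + 1 :=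
        dg_insert_mem hxzH (Sym2.mem_mk_left x z)
      have hze : dg (insert s(x, z) H) z = dg H z + 1 :=
        dg_insert_mem hxzH (Sym2.mem_mk_right x z)
      have hoe : ∀ v, v ≠ x → v ≠ z → dg (insert s(x, z) H) v = dg H v := by
        intro v h3 h4
        apply dg_insert_not
        simp [Sym2.mem_iff, h3, h4]
      have hTi : TF (insert s(x, z) H) := by
        refine hTH.insert (Ne.symm hzx) hlH ?_
        intro t _ ht
        have := dg_pos ht (Sym2.mem_mk_right t z)
        omega
      have hxy' : s(x, y) ∉ insert s(x, z) H := by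
        intro h
        rcases mem_insert.1 h with h | h
        · exact hzy (Sym2.congr_right.1 h).symm
        · exact hxyH h
      obtain ⟨F, hFG, hF, hTF, hFall, hFz, hFy⟩ := ih hp hzy (insert s(x, z) H) (by
          intro e he
          rcases mem_insert.1 he with h | h
          · rw [h]; exact hxz
          · exact hHG e h) hTi (by omega)
        (by rw [hoe y (Ne.symm hxy) (Ne.symm hzy)]; exact hy)
        (by
          intro h
          rcases mem_insert.1 h with h | h
          · rw [Sym2.eq_iff] at h
            rcases h with ⟨h3, -⟩ | ⟨-, h3⟩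
            · exact hzx h3
            · exact hxy h3.symm
          · have := dg_pos h (Sym2.mem_mk_left z y)
            omega)
        (by
          intro _ t ht ht2
          have htx : t = x := nb_unique (E := insert s(x, z) H) (w := z) (by omega) ht
            (by rw [Sym2.eq_swap]; exact mem_insert_self _ _)
          subst htx
          exact hxy' ht2)
        (by
          intro v h3 h4
          by_cases hvx : v = x
          · subst hvx; right; omega
          · rw [hoe v hvx h3]
            exact hall v hvx h4)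
        (by
          intro v hv h3 h4
          have hvx : v ≠ x := by
            rintro rfl
            exact hxp hv
          rw [hoe v hvx h3]
          exact hin v (by simp [hv]) hvx h4)
      refine ⟨F, hFG, (subset_insert _ _).trans hF, hTF, hFall, ?_, hFy⟩
      have := dg_mono hF x
      rcases hFall x with h | h
      · omega
      · exact h

/-- inserting `d` into the edge `bx` of a family of cycles -/
theorem detour {F : Finset (Sym2 V)} {b d x : V} (hl : ∀ v, s(v, v) ∉ F) (hT : TF F)
    (h1 : ∀ v, dg F v = 0 ∨ dg F v = 2) (hd : dg F d = 0) (hbx : s(b, x) ∈ F) :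
    ∃ K : Finset (Sym2 V), (∀ e ∈ K, e ∈ F ∨ e = s(b, d) ∨ e = s(d, x)) ∧ TF K ∧
      (∀ v, dg K v = 0 ∨ dg K v = 2) ∧ dg K d = 2 ∧ ∀ v, dg F v = 2 → dg K v = 2 := by
  have hbd : b ≠ d := by
    rintro rfl
    have := dg_pos hbx (Sym2.mem_mk_left b x)
    omega
  have hxd : x ≠ d := by
    rintro rfl
    have := dg_pos hbx (Sym2.mem_mk_right b x)
    omega
  have hbx' : b ≠ x := by
    rintro rfl
    exact hl _ hbx
  have hnd : ∀ v, s(v, d) ∉ F := by
    intro v h
    have := dg_pos h (Sym2.mem_mk_right v d)
    omega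
  have hnd' : ∀ v, s(d, v) ∉ F := by
    intro v h
    have := dg_pos h (Sym2.mem_mk_left d v)
    omega
  have e1 : s(b, d) ∉ F.erase s(b, x) := fun h => hnd b (mem_of_mem_erase h)
  have e2 : s(d, x) ∉ insert s(b, d) (F.erase s(b, x)) := by
    intro h
    rcases mem_insert.1 h with h | h
    · rcases Sym2.eq_iff.1 h with ⟨h3, -⟩ | ⟨-, h3⟩
      · exact hbd h3.symm
      · exact hbx' h3.symm
    · exact hnd' x (mem_of_mem_erase h)
  have hbe : dg (F.erase s(b, x)) b + 1 = dg F b := dg_erase_mem hbx (Sym2.mem_mk_left b x)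
  have hxe : dg (F.erase s(b, x)) x + 1 = dg F x := dg_erase_mem hbx (Sym2.mem_mk_right b x)
  have hoe : ∀ v, v ≠ b → v ≠ x → dg (F.erase s(b, x)) v = dg F v := by
    intro v h3 h4
    apply dg_erase_not hbx
    simp [Sym2.mem_iff, h3, h4]
  have hdeg : ∀ v, v ≠ d → dg (insert s(d, x) (insert s(b, d) (F.erase s(b, x)))) v = dg F v := by
    intro v hvd
    by_cases hvb : v = b
    · subst hvb
      rw [dg_insert_not (by simp [Sym2.mem_iff, hvd, hbx']),
        dg_insert_mem e1 (Sym2.mem_mk_left v d)]
      exact hbe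
    · by_cases hvx : v = x
      · subst hvx
        rw [dg_insert_mem e2 (Sym2.mem_mk_right d v),
          dg_insert_not (by simp [Sym2.mem_iff, hvd, hvb])]
        exact hxe
      · rw [dg_insert_not (by simp [Sym2.mem_iff, hvd, hvx]),
          dg_insert_not (by simp [Sym2.mem_iff, hvd, hvb])]
        exact hoe v hvb hvx
  have hdd : dg (insert s(d, x) (insert s(b, d) (F.erase s(b, x)))) d = 2 := by
    rw [dg_insert_mem e2 (Sym2.mem_mk_left d x), dg_insert_mem e1 (Sym2.mem_mk_right b d),
      hoe d (Ne.symm hbd) (Ne.symm hxd), hd]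
  refine ⟨insert s(d, x) (insert s(b, d) (F.erase s(b, x))), ?_, ?_, ?_, hdd, ?_⟩
  · intro e he
    rcases mem_insert.1 he with h | h
    · exact Or.inr (Or.inr h)
    · rcases mem_insert.1 h with h | h
      · exact Or.inr (Or.inl h)
      · exact Or.inl (mem_of_mem_erase h)
  · have hle : ∀ v, s(v, v) ∉ F.erase s(b, x) := fun v h => hl v (mem_of_mem_erase h)
    have hT1 : TF (insert s(b, d) (F.erase s(b, x))) := by
      refine (hT.mono (erase_subset _ _)).insert hbd hle ?_
      intro z _ hz
      exact hnd z (mem_of_mem_erase hz)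
    refine hT1.insert (Ne.symm hxd) ?_ ?_
    · intro v h
      rcases mem_insert.1 h with h | h
      · rcases Sym2.eq_iff.1 h with ⟨h3, h4⟩ | ⟨h3, h4⟩
        · exact hbd (h3.symm.trans h4)
        · exact hbd (h4.symm.trans h3)
      · exact hle v h
    · intro z hz hz2
      have hzb : z = b := by
        rcases mem_insert.1 hz with h | h
        · rcases Sym2.eq_iff.1 h with ⟨h3, -⟩ | ⟨-, h3⟩
          · exact absurd h3.symm hbd
          · exact h3
        · exact absurd (mem_of_mem_erase h) (hnd' z)
      subst hzb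
      rcases mem_insert.1 hz2 with h | h
      · exact hxd (Sym2.congr_right.1 h)
      · exact notMem_erase _ _ h
  · intro v
    by_cases hvd : v = d
    · subst hvd
      exact Or.inr hdd
    · rw [hdeg v hvd]
      exact h1 v
  · intro v hv
    by_cases hvd : v = d
    · subst hvd
      exact hdd
    · rw [hdeg v hvd]
      exact hv

/-- `A` is covered by vertex-disjoint cycles of length `≥ 4` of `G` (edge set form) -/
def CovE (G : SimpleGraph V) (A : Finset V) : Prop :=
  ∃ E : Finset (Sym2 V), (∀ e ∈ E, e ∈ G.edgeSet) ∧ TF E ∧ (∀ v, dg E v = 0 ∨ dg E v = 2) ∧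
    ∀ v ∈ A, dg E v = 2

/-- exchange lemma, edge set form -/
theorem exchangeE (G : SimpleGraph V) {A : Finset V} {b d : V} (hb : CovE G (insert b A))
    (hd : CovE G (insert d A)) (p : G.Walk b d)
    (hp : ∀ v ∈ p.support, v = b ∨ v = d ∨ (v ∉ A ∧ ¬ CovE G (insert v A))) :
    CovE G (insert b (insert d A)) := by
  by_cases hbd : b = d
  · subst hbd
    rw [insert_idem]
    exact hb
  by_cases hbA : b ∈ A
  · rw [insert_eq_of_mem (mem_insert_of_mem hbA)]
    exact hd
  obtain ⟨F1, hG1, hT1, h1, h1A⟩ := hb
  obtain ⟨F2, hG2, hT2, h2, h2A⟩ := hd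
  have h1b : dg F1 b = 2 := h1A b (mem_insert_self _ _)
  have h2d : dg F2 d = 2 := h2A d (mem_insert_self _ _)
  have h1A' : ∀ v ∈ A, dg F1 v = 2 := fun v hv => h1A v (mem_insert_of_mem hv)
  have h2A' : ∀ v ∈ A, dg F2 v = 2 := fun v hv => h2A v (mem_insert_of_mem hv)
  rcases h1 d with h1d | h1d
  swap
  · refine ⟨F1, hG1, hT1, h1, ?_⟩
    intro v hv
    rcases mem_insert.1 hv with rfl | hv
    · exact h1b
    rcases mem_insert.1 hv with rfl | hv
    · exact h1d
    · exact h1A' v hv
  rcases h2 b with h2b | h2b
  swap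
  · refine ⟨F2, hG2, hT2, h2, ?_⟩
    intro v hv
    rcases mem_insert.1 hv with rfl | hv
    · exact h2b
    rcases mem_insert.1 hv with rfl | hv
    · exact h2d
    · exact h2A' v hv
  have hGu : ∀ e ∈ F1 ∪ F2, e ∈ G.edgeSet := by
    intro e he
    rcases mem_union.1 he with h | h
    · exact hG1 e h
    · exact hG2 e h
  have hl : ∀ v, s(v, v) ∉ F1 ∪ F2 := by
    intro v h
    exact G.loopless.irrefl v (hGu _ h)
  obtain ⟨K, hK, hTK, h | ⟨hKb, hKd, hKall, hKA⟩⟩ :=
    toggle hl hbd hbA hT1 hT2 h1 h1A' h1b h1d h2 h2A' h2d h2b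
  · obtain ⟨h3, h4, h5, h6⟩ := h
    refine ⟨K, fun e he => hGu e (hK he), hTK, h3, ?_⟩
    intro v hv
    rcases mem_insert.1 hv with rfl | hv
    · exact h5
    rcases mem_insert.1 hv with rfl | hv
    · exact h6
    · exact h4 v hv
  · by_cases hq : G.Adj b d → ∀ z, s(b, z) ∈ K → s(z, d) ∉ K
    · have hnone : ∀ v, v ≠ b → v ≠ d → (v ∉ A ∧ ¬ CovE G (insert v A)) → dg K v = 0 := by
        intro v _ _ hv
        rcases h1 v with h3 | h3
        · rcases h2 v with h4 | h4
          · by_contra hc
            obtain ⟨u, hu, -⟩ := exists_edge (E := K) (F := ∅) (v := v) (by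
              have h0 : dg (∅ : Finset (Sym2 V)) v = 0 := by simp [dg]
              omega)
            rcases mem_union.1 (hK hu) with h | h
            · have := dg_pos h (Sym2.mem_mk_left v u)
              omega
            · have := dg_pos h (Sym2.mem_mk_left v u)
              omega
          · exact absurd ⟨F2, hG2, hT2, h2, fun x hx => by
              rcases mem_insert.1 hx with rfl | hx
              · exact h4
              · exact h2A' x hx⟩ hv.2
        · exact absurd ⟨F1, hG1, hT1, h1, fun x hx => by
              rcases mem_insert.1 hx with rfl | hx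
              · exact h3
              · exact h1A' x hx⟩ hv.2
      obtain ⟨F, hFG, hKF, hTF, hFall, hFb, hFd⟩ := close G p.bypass p.bypass_isPath hbd K
        (fun e he => hGu e (hK he)) hTK hKb hKd (by
          intro h
          rcases mem_union.1 (hK h) with h | h
          · have := dg_pos h (Sym2.mem_mk_right b d)
            omega
          · have := dg_pos h (Sym2.mem_mk_left b d)
            omega) hq hKall (by
          intro v hv h3 h4
          rcases hp v (p.support_bypass_subset_support hv) with h | h | h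
          · exact absurd h h3
          · exact absurd h h4
          · exact hnone v h3 h4 h)
      refine ⟨F, hFG, hTF, hFall, ?_⟩
      intro v hv
      rcases mem_insert.1 hv with rfl | hv
      · exact hFb
      rcases mem_insert.1 hv with rfl | hv
      · exact hFd
      · have h5 := dg_mono hKF v
        have h6 := hKA v hv
        rcases hFall v with h | h
        · omega
        · exact h
    · push Not at hq
      obtain ⟨hadj, z, hz1, hz2⟩ := hq
      have hz1' : s(b, z) ∈ F1 := by
        rcases mem_union.1 (hK hz1) with h | h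
        · exact h
        · have := dg_pos h (Sym2.mem_mk_left b z)
          omega
      obtain ⟨K', hK', hT', h3, h4, h5⟩ := detour (F := F1) (b := b) (d := d) (x := z)
        (fun v h => hl v (mem_union_left _ h)) hT1 h1 h1d hz1'
      refine ⟨K', ?_, hT', h3, ?_⟩
      · intro e he
        rcases hK' e he with h | h | h
        · exact hG1 e h
        · rw [h]; exact hadj
        · rw [h, Sym2.eq_swap]
          exact hGu _ (hK hz2)
      · intro v hv
        rcases mem_insert.1 hv with rfl | hv
        · exact h5 _ h1b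
        rcases mem_insert.1 hv with rfl | hv
        · exact h4
        · exact h5 _ (h1A' v hv)

/-- `A` is covered by vertex-disjoint cycles of length `≥ 4` of `G` (subgraph form) -/
def Cov (G : SimpleGraph V) (A : Finset V) : Prop :=
  ∃ F : SimpleGraph V, F ≤ G ∧ (∀ v, (F.neighborSet v).ncard = 0 ∨ (F.neighborSet v).ncard = 2) ∧
    (∀ x y z, F.Adj x y → F.Adj y z → ¬ F.Adj x z) ∧ ∀ v ∈ A, (F.neighborSet v).ncard = 2

theorem cov_iff [Finite V] (G : SimpleGraph V) (A : Finset V) : Cov G A ↔ CovE G A := by
  constructor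
  · rintro ⟨F, hF, h1, hT, h2⟩
    have hfin : F.edgeSet.Finite := Set.toFinite _
    have hE : ∀ e, e ∈ hfin.toFinset ↔ e ∈ F.edgeSet := by
      intro e
      simp
    refine ⟨hfin.toFinset, ?_, ?_, ?_, ?_⟩
    · intro e he
      exact SimpleGraph.edgeSet_mono hF ((hE e).1 he)
    · intro x y z hxy hyz hxz
      exact hT x y z ((hE _).1 hxy) ((hE _).1 hyz) ((hE _).1 hxz)
    · intro v
      rw [← ncard_eq_dg _ F hE]
      exact h1 v
    · intro v hv
      rw [← ncard_eq_dg _ F hE]
      exact h2 v hv
  · rintro ⟨E, hE, hT, h1, h2⟩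
    have hh : ∀ e, e ∈ E ↔ e ∈ (SimpleGraph.fromEdgeSet (E : Set (Sym2 V))).edgeSet := by
      intro e
      rw [SimpleGraph.edgeSet_fromEdgeSet]
      constructor
      · intro he
        exact ⟨he, G.not_isDiag_of_mem_edgeSet (hE e he)⟩
      · intro he
        exact he.1
    refine ⟨SimpleGraph.fromEdgeSet (E : Set (Sym2 V)), ?_, ?_, ?_, ?_⟩
    · rw [← SimpleGraph.edgeSet_subset_edgeSet]
      intro e he
      exact hE e ((hh e).2 he)
    · intro v
      rw [ncard_eq_dg _ _ hh]
      exact h1 v
    · intro x y z hxy hyz hxz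
      exact hT x y z ((hh _).2 hxy) ((hh _).2 hyz) ((hh _).2 hxz)
    · intro v hv
      rw [ncard_eq_dg _ _ hh]
      exact h2 v hv

omit [DecidableEq V] in
theorem Cov.mono {G : SimpleGraph V} {A B : Finset V} (h : Cov G B) (hAB : A ⊆ B) : Cov G A := by
  obtain ⟨E, h1, h2, h3, h4⟩ := h
  exact ⟨E, h1, h2, h3, fun v hv => h4 v (hAB hv)⟩

/-- (C1) exchange lemma for cycles of length `≥ 4` -/
theorem exchange [Finite V] (G : SimpleGraph V) {A : Finset V} {b d : V}
    (hb : Cov G (insert b A)) (hd : Cov G (insert d A)) (p : G.Walk b d)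
    (hp : ∀ v ∈ p.support, v = b ∨ v = d ∨ (v ∉ A ∧ ¬ Cov G (insert v A))) :
    Cov G (insert b (insert d A)) := by
  rw [cov_iff] at hb hd ⊢
  apply exchangeE G hb hd p
  intro v hv
  rcases hp v hv with h | h | h
  · exact Or.inl h
  · exact Or.inr (Or.inl h)
  · rw [cov_iff] at h
    exact Or.inr (Or.inr h)

end H40T
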