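import Pool.Agent.Lib.H40T.E6
import Pool.Agent.Lib.H15TR.W5
import Pool.Agent.Lib.H8F.F5

/-! Exchange lemma for sets covered by vertex-disjoint cycles of length at least 5: complete form
(the walk is `H15TR.walk5`), in the form needed by `H8F.plane_five`. -/

namespace H40T

open Finset

variable {V : Type*} [DecidableEq V]

/-- the walk -/
theorem walk5 : Walk5 V := by
  intro F1 F2 A b d a0 hl hbd t1 q1 t2 q2 d1 a1 b1 e1 d2 a2 e2 b2 h0
  have l1 : ∀ v, s(v, v) ∉ F1 := fun v hv => hl v (mem_union_left _ hv)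
  have l2 : ∀ v, s(v, v) ∉ F2 := fun v hv => hl v (mem_union_right _ hv)
  have s1 : H15TR.SF F1 := ⟨fun x y z h3 h4 h5 => t1 x y z h3 h4 (smem_comm h5), q1⟩
  have s2 : H15TR.SF F2 := ⟨fun x y z h3 h4 h5 => t2 x y z h3 h4 (smem_comm h5), q2⟩
  obtain ⟨K, hK, hS, hA, hc⟩ := H15TR.walk5 (F₁ := F1) (F₂ := F2) (A := A) (b := b) (d := d)
    (c := a0) ⟨l1, l2, s1, s2, d1, d2, a1, a2, b1, b2, e1, e2, h0⟩
  refine ⟨K, hK, fun x y z h3 h4 h5 => hS.1 x y z h3 h4 (smem_comm h5), hS.2, ?_⟩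
  rcases hc with ⟨h3, h4, h5⟩ | ⟨h3, h4, h5, h6⟩
  · exact Or.inl ⟨h3, hA, h4, h5⟩
  · refine Or.inr ⟨h3, h4, h5, hA, ?_⟩
    intro hr
    apply h6
    intro c' w hc' h7 h8 h9
    by_cases hwd : w = d
    · rw [hwd] at h9
      exact absurd h9 (no_edge' e1 a0)
    · exact absurd h9 (hr c' w h7 hc' h8 hwd)

theorem mem_fromEdgeSet {E : Finset (Sym2 V)} (hE : ∀ e ∈ E, ¬ e.IsDiag) (e : Sym2 V) :
    e ∈ (SimpleGraph.fromEdgeSet (E : Set (Sym2 V))).edgeSet ↔ e ∈ E := by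
  rw [SimpleGraph.edgeSet_fromEdgeSet]
  constructor
  · intro he
    exact he.1
  · intro he
    exact ⟨he, hE e he⟩

theorem cov5_iff {E : Finset (Sym2 V)} (hE : ∀ e ∈ E, ¬ e.IsDiag) (A : Finset V) :
    H8F.Cov5 E A ↔ CovE5 (SimpleGraph.fromEdgeSet (E : Set (Sym2 V))) A := by
  constructor
  · rintro ⟨F, h1, h2, h3, h4, h5⟩
    exact ⟨F, fun e he => (mem_fromEdgeSet hE e).2 (h1 he), h3, h4, h2, h5⟩
  · rintro ⟨F, h1, h3, h4, h2, h5⟩
    exact ⟨F, fun e he => (mem_fromEdgeSet hE e).1 (h1 e he), h2, h3, h4, h5⟩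

/-- THE EXCHANGE LEMMA for cycles of length at least five, with a walk. -/
theorem exch5 {E : Finset (Sym2 V)} (hE : ∀ e ∈ E, ¬ e.IsDiag) {A : Finset V} {b d : V}
    (hb : H8F.Cov5 E (insert b A)) (hd : H8F.Cov5 E (insert d A))
    (p : (SimpleGraph.fromEdgeSet (E : Set (Sym2 V))).Walk b d)
    (hp : ∀ v ∈ p.support, v ≠ b → v ≠ d → ¬ H8F.Cov5 E (insert v A)) :
    H8F.Cov5 E (insert b (insert d A)) := by
  rw [cov5_iff hE] at hb hd ⊢
  apply exchangeE5' walk5 _ hb hd p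
  intro v hv h1 h2
  rw [← cov5_iff hE]
  exact hp v hv h1 h2

/-- THE EXCHANGE LEMMA for cycles of length at least five, with a connected set. -/
theorem exch5_set {E : Finset (Sym2 V)} (hE : ∀ e ∈ E, ¬ e.IsDiag) {A U : Finset V} {b d : V}
    (hb : H8F.Cov5 E (insert b A)) (hd : H8F.Cov5 E (insert d A)) (hbU : b ∈ U) (hdU : d ∈ U)
    (hU : ¬ H98M.Disc U E) (hin : ∀ u ∈ U, u ≠ b → u ≠ d → ¬ H8F.Cov5 E (insert u A)) :
    H8F.Cov5 E (insert b (insert d A)) := by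
  obtain ⟨p, -, hpU⟩ := H85TF.path_of_not_disc hU hbU hdU
  exact exch5 hE hb hd p fun r hr => hin r (hpU r hr)

end H40T
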