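import Pool.Agent.Lib.H40T.Q5

/-! Exchange lemma for sets covered by vertex-disjoint cycles of length at least 5, from the
toggling walk `Walk5` (end analysis). -/

namespace H40T

open Finset H91P

variable {V : Type*} [DecidableEq V]

/-- the statement of the toggling walk without cycles of length 3 and 4 -/
def Walk5 (V : Type*) [DecidableEq V] : Prop :=
  ∀ (F1 F2 : Finset (Sym2 V)) (A : Finset V) (b d a0 : V), (∀ v, s(v, v) ∉ F1 ∪ F2) → b ≠ d →
    TF F1 → QF F1 → TF F2 → QF F2 →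
    (∀ v, dg F1 v = 0 ∨ dg F1 v = 2) → (∀ v ∈ A, dg F1 v = 2) → dg F1 b = 2 → dg F1 d = 0 →
    (∀ v, dg F2 v = 0 ∨ dg F2 v = 2) → (∀ v ∈ A, dg F2 v = 2) → dg F2 d = 2 → dg F2 b = 0 →
    s(d, a0) ∈ F2 →
    ∃ K : Finset (Sym2 V), K ⊆ F1 ∪ F2 ∧ TF K ∧ QF K ∧
      (((∀ v, dg K v = 0 ∨ dg K v = 2) ∧ (∀ v ∈ A, dg K v = 2) ∧ dg K b = 2 ∧ dg K d = 2) ∨
       (dg K b = 1 ∧ dg K d = 1 ∧ (∀ v, v ≠ b → v ≠ d → dg K v = 0 ∨ dg K v = 2) ∧
        (∀ v ∈ A, dg K v = 2) ∧
        ((∀ d' w, s(d, d') ∈ F2 → d' ≠ a0 → s(d', w) ∈ F2 → w ≠ d → s(w, a0) ∉ F1) →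
          s(d, a0) ∈ K)))

/-- `A` is covered by vertex-disjoint cycles of length `≥ 5` of `G` (edge set form) -/
def CovE5 (G : SimpleGraph V) (A : Finset V) : Prop :=
  ∃ E : Finset (Sym2 V), (∀ e ∈ E, e ∈ G.edgeSet) ∧ TF E ∧ QF E ∧
    (∀ v, dg E v = 0 ∨ dg E v = 2) ∧ ∀ v ∈ A, dg E v = 2

/-- an instance of the exchange problem -/
structure Inst (G : SimpleGraph V) (F1 F2 : Finset (Sym2 V)) (A : Finset V) (b d : V) : Prop where
  g1 : ∀ e ∈ F1, e ∈ G.edgeSet
  t1 : TF F1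
  q1 : QF F1
  d1 : ∀ v, dg F1 v = 0 ∨ dg F1 v = 2
  a1 : ∀ v ∈ A, dg F1 v = 2
  b1 : dg F1 b = 2
  e1 : dg F1 d = 0
  g2 : ∀ e ∈ F2, e ∈ G.edgeSet
  t2 : TF F2
  q2 : QF F2
  d2 : ∀ v, dg F2 v = 0 ∨ dg F2 v = 2
  a2 : ∀ v ∈ A, dg F2 v = 2
  e2 : dg F2 d = 2
  b2 : dg F2 b = 0

theorem Inst.symm {G : SimpleGraph V} {F1 F2 : Finset (Sym2 V)} {A : Finset V} {b d : V}
    (h : Inst G F1 F2 A b d) : Inst G F2 F1 A d b :=
  ⟨h.g2, h.t2, h.q2, h.d2, h.a2, h.e2, h.b2, h.g1, h.t1, h.q1, h.d1, h.a1, h.b1, h.e1⟩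

theorem no_edge {E : Finset (Sym2 V)} {v : V} (h : dg E v = 0) : ∀ u, s(u, v) ∉ E := by
  intro u hu
  have := dg_pos hu (Sym2.mem_mk_right u v)
  omega

theorem no_edge' {E : Finset (Sym2 V)} {v : V} (h : dg E v = 0) : ∀ u, s(v, u) ∉ E := by
  intro u hu
  have := dg_pos hu (Sym2.mem_mk_left v u)
  omega

/-- a vertex of degree at most two with two known neighbours -/
theorem nb_two {E : Finset (Sym2 V)} {w x y z : V} (h : dg E w ≤ 2) (hx : s(w, x) ∈ E)
    (hy : s(w, y) ∈ E) (hxy : x ≠ y) (hz : s(w, z) ∈ E) : z = x ∨ z = y := by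
  by_contra hc
  push Not at hc
  have := three_le hx hy hz hxy (Ne.symm hc.1) (Ne.symm hc.2)
  omega

section

variable {G : SimpleGraph V} {F1 F2 : Finset (Sym2 V)} {A : Finset V} {b d : V}

theorem Inst.ne (h : Inst G F1 F2 A b d) : b ≠ d := by
  rintro rfl
  have := h.b1
  have := h.e1
  omega

theorem Inst.hl (h : Inst G F1 F2 A b d) : ∀ v, s(v, v) ∉ F1 ∪ F2 := by
  intro v hv
  rcases mem_union.1 hv with h1 | h1
  · exact G.loopless.irrefl v (h.g1 _ h1)
  · exact G.loopless.irrefl v (h.g2 _ h1)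

theorem Inst.hg (h : Inst G F1 F2 A b d) : ∀ e ∈ F1 ∪ F2, e ∈ G.edgeSet := by
  intro e he
  rcases mem_union.1 he with h1 | h1
  · exact h.g1 _ h1
  · exact h.g2 _ h1

theorem Inst.dA (h : Inst G F1 F2 A b d) : d ∉ A := by
  intro hd
  have := h.a1 d hd
  have := h.e1
  omega

theorem Inst.bA (h : Inst G F1 F2 A b d) : b ∉ A := h.symm.dA

/-- edges at `b` of a subset of `F1 ∪ F2` -/
theorem Inst.at_b (h : Inst G F1 F2 A b d) {z : V} (hz : s(b, z) ∈ F1 ∪ F2) : s(b, z) ∈ F1 := by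
  rcases mem_union.1 hz with h1 | h1
  · exact h1
  · exact absurd h1 (no_edge' h.b2 z)

theorem Inst.at_d (h : Inst G F1 F2 A b d) {z : V} (hz : s(z, d) ∈ F1 ∪ F2) : s(z, d) ∈ F2 := by
  rcases mem_union.1 hz with h1 | h1
  · exact absurd h1 (no_edge h.e1 z)
  · exact h1

/-- the end with a path of length two: insertion of `R` and `d` into a cycle of `F1` -/
theorem Inst.case2 (h : Inst G F1 F2 A b d) {z : V} (h1 : s(b, z) ∈ F1) (h2 : s(z, d) ∈ F2)
    (p : G.Walk b d) (hp : p.IsPath) (hin : ∀ v ∈ p.support, v ≠ b → v ≠ d → dg F1 v = 0) :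
    CovE5 G (insert b (insert d A)) := by
  have hbd := h.ne
  have hl1 : ∀ v, s(v, v) ∉ F1 := fun v hv => h.hl v (mem_union_left _ hv)
  have hl2 : ∀ v, s(v, v) ∉ F2 := fun v hv => h.hl v (mem_union_right _ hv)
  have hzb : z ≠ b := by
    rintro rfl
    exact hl1 _ h1
  have hzd : z ≠ d := by
    rintro rfl
    exact hl2 _ h2
  have hz2 : dg F1 z = 2 := by
    rcases h.d1 z with h3 | h3
    · exact absurd h1 (no_edge h3 b)
    · exact h3
  set X := F1.erase s(b, z) with hX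
  have hXb : dg X b + 1 = dg F1 b := dg_erase_mem h1 (Sym2.mem_mk_left b z)
  have hXz : dg X z + 1 = dg F1 z := dg_erase_mem h1 (Sym2.mem_mk_right b z)
  have hXo : ∀ v, v ≠ b → v ≠ z → dg X v = dg F1 v := by
    intro v h3 h4
    apply dg_erase_not h1
    simp [Sym2.mem_iff, h3, h4]
  have hX1 : X ⊆ F1 := erase_subset _ _
  have hXd : dg X d = 0 := by
    rw [hXo d (Ne.symm hbd) (Ne.symm hzd)]
    exact h.e1
  have hzdX : s(z, d) ∉ X := no_edge hXd z
  set Y := insert s(z, d) X with hY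
  have hYz : dg Y z = dg X z + 1 := dg_insert_mem hzdX (Sym2.mem_mk_left z d)
  have hYd : dg Y d = dg X d + 1 := dg_insert_mem hzdX (Sym2.mem_mk_right z d)
  have hYo : ∀ v, v ≠ z → v ≠ d → dg Y v = dg X v := by
    intro v h3 h4
    apply dg_insert_not
    simp [Sym2.mem_iff, h3, h4]
  have hlX : ∀ v, s(v, v) ∉ X := fun v hv => hl1 v (hX1 hv)
  have hYT : TF Y := by
    refine (h.t1.mono hX1).insert hzd hlX ?_
    intro t _ ht
    exact no_edge hXd t ht
  have hYQ : QF Y := by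
    refine (h.q1.mono hX1).ins hzd hlX ?_
    intro t u _ _ _ _ ht
    exact no_edge hXd u ht
  have hYb : dg Y b = 1 := by
    rw [hYo b (Ne.symm hzb) hbd]
    have := h.b1
    omega
  have hYz2 : dg Y z = 2 := by omega
  have hYd1 : dg Y d = 1 := by omega
  have hYX : ∀ t u, u ≠ d → t ≠ d → s(t, u) ∈ Y → s(t, u) ∈ X := by
    intro t u hu ht h3
    rcases mem_insert.1 h3 with h4 | h4
    · rcases Sym2.eq_iff.1 h4 with ⟨-, h5⟩ | ⟨h5, -⟩
      · exact absurd h5 hu
      · exact absurd h5 ht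
    · exact h4
  have hdn : ∀ t, s(t, d) ∈ Y → t = z := by
    intro t ht
    exact nb_unique (E := Y) (w := d) hYd1 (smem_comm ht) (smem_comm (mem_insert_self _ _))
  have hbz : s(b, z) ∉ Y := by
    intro h3
    exact notMem_erase _ _ (hYX b z hzd hbd h3)
  obtain ⟨F, hFG, hYF, hTF, hQF, hFall, hFb, hFd⟩ := close5 G p hp hbd Y (by
      intro e he
      rcases mem_insert.1 he with h3 | h3
      · rw [h3]; exact h.g2 _ h2
      · exact h.g1 e (hX1 h3)) hYT hYQ hYb hYd1 (by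
      intro h3
      exact hzb (hdn b h3).symm) (by
      intro t ht ht2
      rw [hdn t ht2] at ht
      exact hbz ht) (by
      intro _ u v hud hvb hu huv hv
      rw [hdn v hv] at huv
      have hu' : s(b, u) ∈ F1 := hX1 (hYX b u hud hbd hu)
      have huz' : s(u, z) ∈ F1 := hX1 (hYX u z hzd hud huv)
      exact h.t1 b u z hu' huz' h1) (by
      intro v h3 h4
      by_cases hvz : v = z
      · rw [hvz]
        exact Or.inr hYz2
      · rw [hYo v hvz h4, hXo v h3 hvz]
        exact h.d1 v) (by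
      intro v hv h3 h4
      by_cases hvz : v = z
      · have := hin v hv h3 h4
        rw [hvz] at this
        omega
      · rw [hYo v hvz h4, hXo v h3 hvz]
        exact hin v hv h3 h4)
  refine ⟨F, hFG, hTF, hQF, hFall, ?_⟩
  intro v hv
  rcases mem_insert.1 hv with rfl | hv
  · exact hFb
  rcases mem_insert.1 hv with rfl | hv
  · exact hFd
  · have h3 := h.a1 v hv
    have h4 : 1 ≤ dg Y v := by
      by_cases hvz : v = z
      · rw [hvz]
        omega
      · have hvd : v ≠ d := fun h9 => h.dA (by rw [← h9]; exact hv)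
        have hvb : v ≠ b := fun h9 => h.bA (by rw [← h9]; exact hv)
        rw [hYo v hvz hvd, hXo v hvb hvz]
        omega
    have h5 := dg_mono hYF v
    rcases hFall v with h6 | h6
    · omega
    · exact h6

/-- closing with the edge `bd` or a path when no short path exists -/
theorem Inst.closeK (h : Inst G F1 F2 A b d) {K : Finset (Sym2 V)} (hK : K ⊆ F1 ∪ F2)
    (hT : TF K) (hQ : QF K) (hb : dg K b = 1) (hd : dg K d = 1)
    (hall : ∀ v, v ≠ b → v ≠ d → dg K v = 0 ∨ dg K v = 2) (hA : ∀ v ∈ A, dg K v = 2)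
    (p : G.Walk b d) (hp : p.IsPath)
    (hin : ∀ v ∈ p.support, v ≠ b → v ≠ d → dg F1 v = 0 ∧ dg F2 v = 0)
    (h3 : ∀ z, s(b, z) ∈ K → s(z, d) ∉ K)
    (h4 : G.Adj b d → ∀ u v, u ≠ d → v ≠ b → s(b, u) ∈ K → s(u, v) ∈ K → s(v, d) ∉ K) :
    CovE5 G (insert b (insert d A)) := by
  obtain ⟨F, hFG, hKF, hTF, hQF, hFall, hFb, hFd⟩ := close5 G p hp h.ne K
    (fun e he => h.hg e (hK he)) hT hQ hb hd (by
      intro h5
      rcases mem_union.1 (hK h5) with h6 | h6
      · exact no_edge h.e1 b h6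
      · exact no_edge' h.b2 d h6) h3 h4 hall (by
      intro v hv h5 h6
      obtain ⟨h7, h8⟩ := hin v hv h5 h6
      by_contra hc
      obtain ⟨u, hu, -⟩ := exists_edge (E := K) (F := ∅) (v := v) (by
        have h0 : dg (∅ : Finset (Sym2 V)) v = 0 := by simp [dg]
        omega)
      rcases mem_union.1 (hK hu) with h9 | h9
      · exact no_edge' h7 u h9
      · exact no_edge' h8 u h9)
  refine ⟨F, hFG, hTF, hQF, hFall, ?_⟩
  intro v hv
  rcases mem_insert.1 hv with rfl | hv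
  · exact hFb
  rcases mem_insert.1 hv with rfl | hv
  · exact hFd
  · have h5 := dg_mono hKF v
    have h6 := hA v hv
    rcases hFall v with h7 | h7
    · omega
    · exact h7

/-- `w` replaced by `d` in its cycle of `F1` -/
theorem Inst.replace (h : Inst G F1 F2 A b d) (hadj : G.Adj b d) {w w' : V} (h1 : s(b, w) ∈ F1)
    (h2 : s(w, w') ∈ F1) (h3 : s(w', d) ∈ F2) :
    ∃ F3 : Finset (Sym2 V), (∀ e ∈ F3, e ∈ G.edgeSet) ∧ TF F3 ∧ QF F3 ∧ dg F3 w = 0 ∧
      dg F3 d = 2 ∧ (∀ v, v ≠ w → v ≠ d → dg F3 v = dg F1 v) ∧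
      (s(w, w') ∉ F2 → (symmDiff F3 F2).card < (symmDiff F1 F2).card) := by
  have hbd := h.ne
  have hl1 : ∀ v, s(v, v) ∉ F1 := fun v hv => h.hl v (mem_union_left _ hv)
  have hl2 : ∀ v, s(v, v) ∉ F2 := fun v hv => h.hl v (mem_union_right _ hv)
  have hwb : w ≠ b := by
    rintro rfl
    exact hl1 _ h1
  have hww : w ≠ w' := by
    rintro rfl
    exact hl1 _ h2
  have hw'd : w' ≠ d := by
    rintro rfl
    exact hl2 _ h3
  have hwd : w ≠ d := by
    rintro rfl
    exact no_edge h.e1 b h1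
  have hw'b : w' ≠ b := by
    rintro rfl
    exact no_edge' h.b2 d h3
  have hw2 : dg F1 w = 2 := by
    rcases h.d1 w with h4 | h4
    · exact absurd h1 (no_edge h4 b)
    · exact h4
  -- remove the edge bw
  set X := F1.erase s(b, w) with hX
  have hX1 : X ⊆ F1 := erase_subset _ _
  have hXb : dg X b + 1 = dg F1 b := dg_erase_mem h1 (Sym2.mem_mk_left b w)
  have hXw : dg X w + 1 = dg F1 w := dg_erase_mem h1 (Sym2.mem_mk_right b w)
  have hXo : ∀ v, v ≠ b → v ≠ w → dg X v = dg F1 v := by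
    intro v h4 h5
    apply dg_erase_not h1
    simp [Sym2.mem_iff, h4, h5]
  have h2X : s(w, w') ∈ X := by
    rw [hX, mem_erase]
    refine ⟨?_, h2⟩
    intro h4
    rcases Sym2.eq_iff.1 h4 with ⟨h5, -⟩ | ⟨-, h5⟩
    · exact hwb h5
    · exact hw'b h5
  -- remove the edge ww'
  set Y := X.erase s(w, w') with hY
  have hYX : Y ⊆ X := erase_subset _ _
  have hYw : dg Y w + 1 = dg X w := dg_erase_mem h2X (Sym2.mem_mk_left w w')
  have hYw' : dg Y w' + 1 = dg X w' := dg_erase_mem h2X (Sym2.mem_mk_right w w')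
  have hYo : ∀ v, v ≠ w → v ≠ w' → dg Y v = dg X v := by
    intro v h4 h5
    apply dg_erase_not h2X
    simp [Sym2.mem_iff, h4, h5]
  have hYd : dg Y d = 0 := by
    rw [hYo d (Ne.symm hwd) (Ne.symm hw'd), hXo d (Ne.symm hbd) (Ne.symm hwd)]
    exact h.e1
  have hlY : ∀ v, s(v, v) ∉ Y := fun v hv => hl1 v (hX1 (hYX hv))
  -- insert bd
  have hbdY : s(b, d) ∉ Y := no_edge hYd b
  set Z := insert s(b, d) Y with hZ
  have hZb : dg Z b = dg Y b + 1 := dg_insert_mem hbdY (Sym2.mem_mk_left b d)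
  have hZd : dg Z d = dg Y d + 1 := dg_insert_mem hbdY (Sym2.mem_mk_right b d)
  have hZo : ∀ v, v ≠ b → v ≠ d → dg Z v = dg Y v := by
    intro v h4 h5
    apply dg_insert_not
    simp [Sym2.mem_iff, h4, h5]
  have hZT : TF Z := by
    refine (h.t1.mono (hYX.trans hX1)).insert hbd hlY ?_
    intro t _ ht
    exact no_edge hYd t ht
  have hZQ : QF Z := by
    refine (h.q1.mono (hYX.trans hX1)).ins hbd hlY ?_
    intro t u _ _ _ _ ht
    exact no_edge hYd u ht
  have hlZ : ∀ v, s(v, v) ∉ Z := by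
    intro v hv
    rcases mem_insert.1 hv with h4 | h4
    · rcases Sym2.eq_iff.1 h4 with ⟨h5, h6⟩ | ⟨h5, h6⟩
      · exact hbd (h5.symm.trans h6)
      · exact hbd (h6.symm.trans h5)
    · exact hlY v h4
  have hZY : ∀ t u, t ≠ d → u ≠ d → s(t, u) ∈ Z → s(t, u) ∈ Y := by
    intro t u ht hu h4
    rcases mem_insert.1 h4 with h5 | h5
    · rcases Sym2.eq_iff.1 h5 with ⟨-, h6⟩ | ⟨h6, -⟩
      · exact absurd h6 hu
      · exact absurd h6 ht
    · exact h5
  have hZd1 : dg Z d = 1 := by omega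
  have hdn : ∀ t, s(d, t) ∈ Z → t = b := fun t ht =>
    nb_unique (E := Z) (w := d) hZd1 ht (smem_comm (mem_insert_self _ _))
  have hdwZ : s(d, w') ∉ Z := fun h4 => hw'b (hdn w' h4)
  -- insert dw'
  set F3 := insert s(d, w') Z with hF3
  have h3d : dg F3 d = dg Z d + 1 := dg_insert_mem hdwZ (Sym2.mem_mk_left d w')
  have h3w' : dg F3 w' = dg Z w' + 1 := dg_insert_mem hdwZ (Sym2.mem_mk_right d w')
  have h3o : ∀ v, v ≠ d → v ≠ w' → dg F3 v = dg Z v := by
    intro v h4 h5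
    apply dg_insert_not
    simp [Sym2.mem_iff, h4, h5]
  have h3T : TF F3 := by
    refine hZT.insert (Ne.symm hw'd) hlZ ?_
    intro t ht ht2
    rw [hdn t ht] at ht2
    have h4 : s(b, w') ∈ F1 := hX1 (hYX (hZY b w' hbd hw'd ht2))
    exact h.t1 b w w' h1 h2 h4
  have h3Q : QF F3 := by
    refine hZQ.ins (Ne.symm hw'd) hlZ ?_
    intro t u ht hu h4 h5 h6
    rw [hdn t h4] at h5
    have h7 : s(b, u) ∈ F1 := hX1 (hYX (hZY b u hbd hu h5))
    have h8 : s(u, w') ∈ F1 := hX1 (hYX (hZY u w' hu hw'd h6))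
    have hwu : w ≠ u := by
      rintro rfl
      exact notMem_erase _ _ (hYX (hZY b w hbd hwd h5))
    exact h.q1 b w w' u (Ne.symm hw'b) hwu h1 h2 (smem_comm h8) (smem_comm h7)
  have hdegw : dg F3 w = 0 := by
    rw [h3o w hwd hww, hZo w hwb hwd]
    omega
  refine ⟨F3, ?_, h3T, h3Q, hdegw, by omega, ?_, ?_⟩
  · intro e he
    rcases mem_insert.1 he with h4 | h4
    · rw [h4, Sym2.eq_swap]
      exact h.g2 _ h3
    · rcases mem_insert.1 h4 with h5 | h5
      · rw [h5]
        exact hadj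
      · exact h.g1 _ (hX1 (hYX h5))
  · intro v h4 h5
    by_cases hvb : v = b
    · rw [hvb, h3o b hbd (Ne.symm hw'b), hZb, hYo b (Ne.symm hwb) (Ne.symm hw'b), hXb]
    · by_cases hvw : v = w'
      · rw [hvw, h3w', hZo w' hw'b hw'd, hYw', hXo w' hw'b (Ne.symm hww)]
      · rw [h3o v h5 hvw, hZo v hvb h5, hYo v h4 hvw, hXo v hvb h4]
  · intro h4
    -- F3 sd F2 is contained in insert bd (F1 sd F2 minus bw, ww', w'd)
    have hbw2 : s(b, w) ∉ F2 := no_edge' h.b2 w
    have hm1 : s(b, w) ∈ symmDiff F1 F2 := mem_symmDiff.2 (Or.inl ⟨h1, hbw2⟩)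
    have hm2 : s(w, w') ∈ symmDiff F1 F2 := mem_symmDiff.2 (Or.inl ⟨h2, h4⟩)
    have hne : s(w, w') ≠ s(b, w) := by
      intro h5
      rcases Sym2.eq_iff.1 h5 with ⟨h6, -⟩ | ⟨-, h6⟩
      · exact hwb h6
      · exact hw'b h6
    have hsub : symmDiff F3 F2 ⊆
        insert s(b, d) (((symmDiff F1 F2).erase s(b, w)).erase s(w, w')) := by
      intro e he
      rw [mem_symmDiff] at he
      rcases he with ⟨h5, h6⟩ | ⟨h5, h6⟩
      · rcases mem_insert.1 h5 with h7 | h7
        · rw [h7, Sym2.eq_swap] at h6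
          exact absurd h3 h6
        · rcases mem_insert.1 h7 with h8 | h8
          · rw [h8]
            exact mem_insert_self _ _
          · apply mem_insert_of_mem
            have h9 := mem_erase.1 h8
            have h10 := mem_erase.1 h9.2
            rw [mem_erase, mem_erase, mem_symmDiff]
            exact ⟨h9.1, h10.1, Or.inl ⟨h10.2, h6⟩⟩
      · apply mem_insert_of_mem
        rw [mem_erase, mem_erase, mem_symmDiff]
        refine ⟨?_, ?_, Or.inr ⟨h5, ?_⟩⟩
        · rintro rfl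
          exact h4 h5
        · rintro rfl
          exact hbw2 h5
        · intro h7
          apply h6
          apply mem_insert_of_mem
          apply mem_insert_of_mem
          rw [hY, mem_erase, hX, mem_erase]
          refine ⟨?_, ?_, h7⟩
          · rintro rfl
            exact h4 h5
          · rintro rfl
            exact hbw2 h5
    have hc1 := card_le_card hsub
    have hc2 := card_insert_le s(b, d) (((symmDiff F1 F2).erase s(b, w)).erase s(w, w'))
    have hm3 : s(w, w') ∈ (symmDiff F1 F2).erase s(b, w) := mem_erase.2 ⟨hne, hm2⟩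
    have hc3 := card_erase_of_mem hm3
    have hc4 := card_erase_of_mem hm1
    have hc5 : 2 ≤ (symmDiff F1 F2).card := by
      have : ({s(b, w), s(w, w')} : Finset (Sym2 V)) ⊆ symmDiff F1 F2 := by
        intro e he
        rw [mem_insert, mem_singleton] at he
        rcases he with rfl | rfl
        · exact hm1
        · exact hm2
      have h5 := card_le_card this
      rw [card_pair hne.symm] at h5
      exact h5
    -- also w'd is in F1 sd F2 and not in F3 sd F2
    have hm4 : s(w', d) ∈ symmDiff F1 F2 :=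
      mem_symmDiff.2 (Or.inr ⟨h3, no_edge h.e1 w'⟩)
    have hm5 : s(w', d) ∉ symmDiff F3 F2 := by
      rw [mem_symmDiff]
      rintro (⟨-, h5⟩ | ⟨-, h5⟩)
      · exact h5 h3
      · apply h5
        rw [Sym2.eq_swap]
        exact mem_insert_self _ _
    have hsub2 : symmDiff F3 F2 ⊆ insert s(b, d)
        ((((symmDiff F1 F2).erase s(b, w)).erase s(w, w')).erase s(w', d)) := by
      intro e he
      rcases mem_insert.1 (hsub he) with h5 | h5
      · rw [h5]
        exact mem_insert_self _ _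
      · apply mem_insert_of_mem
        rw [mem_erase]
        refine ⟨?_, h5⟩
        rintro rfl
        exact hm5 he
    have hm6 : s(w', d) ∈ ((symmDiff F1 F2).erase s(b, w)).erase s(w, w') := by
      rw [mem_erase, mem_erase]
      refine ⟨?_, ?_, hm4⟩
      · intro h5
        rcases Sym2.eq_iff.1 h5 with ⟨h6, -⟩ | ⟨-, h6⟩
        · exact hww h6.symm
        · exact hwd h6.symm
      · intro h5
        rcases Sym2.eq_iff.1 h5 with ⟨h6, -⟩ | ⟨-, h6⟩
        · exact hw'b h6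
        · exact hbd h6.symm
    have hc6 := card_le_card hsub2
    have hc7 := card_insert_le s(b, d)
      ((((symmDiff F1 F2).erase s(b, w)).erase s(w, w')).erase s(w', d))
    have hc8 := card_erase_of_mem hm6
    have hc9 : 1 ≤ (((symmDiff F1 F2).erase s(b, w)).erase s(w, w')).card :=
      card_pos.2 ⟨_, hm6⟩
    omega

end

end H40T
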