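import Pool.Agent.Lib.H40T.E5

/-! Exchange lemma for sets covered by vertex-disjoint cycles of length at least 5, from the
toggling walk `Walk5` (end analysis, second part). -/

namespace H40T

open Finset H91P

variable {V : Type*} [DecidableEq V]

theorem set1 {A : Finset V} {b d x : V} (hx : x ∈ A) :
    insert b (insert x (insert d (A.erase x))) = insert b (insert d A) := by
  ext v
  simp only [mem_insert, mem_erase]
  constructor
  · rintro (h | h | h | h)
    · exact Or.inl h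
    · exact Or.inr (Or.inr (h ▸ hx))
    · exact Or.inr (Or.inl h)
    · exact Or.inr (Or.inr h.2)
  · rintro (h | h | h)
    · exact Or.inl h
    · exact Or.inr (Or.inr (Or.inl h))
    · by_cases hv : v = x
      · exact Or.inr (Or.inl hv)
      · exact Or.inr (Or.inr (Or.inr ⟨hv, h⟩))

section

variable {G : SimpleGraph V} {F1 F2 : Finset (Sym2 V)} {A : Finset V} {b d : V}

/-- the middle edge is in `F1` -/
theorem Inst.mid1 {N : ℕ} (IH : ∀ (F1 F2 : Finset (Sym2 V)) (A : Finset V) (b d : V),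
      (symmDiff F1 F2).card ≤ N → Inst G F1 F2 A b d → G.Adj b d →
      CovE5 G (insert b (insert d A)))
    (hN : (symmDiff F1 F2).card ≤ N + 1) (h : Inst G F1 F2 A b d) (hadj : G.Adj b d) {x y : V}
    (h1 : s(b, x) ∈ F1) (h2 : s(x, y) ∈ F1) (h3 : s(y, d) ∈ F2) (hc : x ∉ A ∨ s(x, y) ∉ F2) :
    CovE5 G (insert b (insert d A)) := by
  have hbd := h.ne
  obtain ⟨F3, hG3, hT3, hQ3, hx0, hd2, hrest, hlt⟩ := h.replace hadj h1 h2 h3
  have hxb : x ≠ b := by
    rintro rfl
    exact h.hl x (mem_union_left _ h1)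
  have hxd : x ≠ d := by
    rintro rfl
    exact no_edge h.e1 b h1
  have hdeg : ∀ v, dg F3 v = 0 ∨ dg F3 v = 2 := by
    intro v
    by_cases hvx : v = x
    · rw [hvx]
      exact Or.inl hx0
    · by_cases hvd : v = d
      · rw [hvd]
        exact Or.inr hd2
      · rw [hrest v hvx hvd]
        exact h.d1 v
  have hb3 : dg F3 b = 2 := by
    rw [hrest b (Ne.symm hxb) hbd]
    exact h.b1
  by_cases hxA : x ∈ A
  · have hxy2 : s(x, y) ∉ F2 := by
      rcases hc with hc | hc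
      · exact absurd hxA hc
      · exact hc
    have hlt' := hlt hxy2
    have hres := IH F3 F2 (insert d (A.erase x)) b x (by omega)
      ⟨hG3, hT3, hQ3, hdeg, (by
        intro v hv
        rcases mem_insert.1 hv with h4 | h4
        · rw [h4]
          exact hd2
        · have h5 := mem_erase.1 h4
          have hvd : v ≠ d := fun h9 => h.dA (by rw [← h9]; exact h5.2)
          rw [hrest v h5.1 hvd]
          exact h.a1 v h5.2), hb3, hx0, h.g2, h.t2, h.q2, h.d2, (by
        intro v hv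
        rcases mem_insert.1 hv with h4 | h4
        · rw [h4]
          exact h.e2
        · exact h.a2 v (mem_erase.1 h4).2), h.a2 x hxA, h.b2⟩ (h.g1 _ h1)
    rw [set1 hxA] at hres
    exact hres
  · refine ⟨F3, hG3, hT3, hQ3, hdeg, ?_⟩
    intro v hv
    rcases mem_insert.1 hv with h4 | hv
    · rw [h4]
      exact hb3
    rcases mem_insert.1 hv with h4 | hv
    · rw [h4]
      exact hd2
    · have hvd : v ≠ d := fun h9 => h.dA (by rw [← h9]; exact hv)
      have hvx : v ≠ x := fun h9 => hxA (by rw [← h9]; exact hv)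
      rw [hrest v hvx hvd]
      exact h.a1 v hv

/-- everything except a middle edge of both families between two vertices of `A` -/
theorem Inst.mid {N : ℕ} (IH : ∀ (F1 F2 : Finset (Sym2 V)) (A : Finset V) (b d : V),
      (symmDiff F1 F2).card ≤ N → Inst G F1 F2 A b d → G.Adj b d →
      CovE5 G (insert b (insert d A)))
    (hN : (symmDiff F1 F2).card ≤ N + 1) (h : Inst G F1 F2 A b d) (hadj : G.Adj b d) {x y : V}
    (h1 : s(b, x) ∈ F1) (h2 : s(x, y) ∈ F1 ∪ F2) (h3 : s(y, d) ∈ F2) :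
    CovE5 G (insert b (insert d A)) ∨ (s(x, y) ∈ F1 ∧ s(x, y) ∈ F2 ∧ x ∈ A ∧ y ∈ A) := by
  have hmid2 : s(x, y) ∈ F2 → (y ∉ A ∨ s(x, y) ∉ F1) → CovE5 G (insert b (insert d A)) := by
    intro h4 hc
    have := Inst.mid1 IH (by rw [symmDiff_comm]; exact hN) h.symm hadj.symm (x := y) (y := x)
      (smem_comm h3) (smem_comm h4) (smem_comm h1) (by
        rcases hc with hc | hc
        · exact Or.inl hc
        · exact Or.inr (fun h9 => hc (smem_comm h9)))
    rw [insert_comm] at this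
    exact this
  by_cases h4 : s(x, y) ∈ F1
  · by_cases h5 : s(x, y) ∈ F2
    · by_cases h6 : x ∈ A
      · by_cases h7 : y ∈ A
        · exact Or.inr ⟨h4, h5, h6, h7⟩
        · exact Or.inl (hmid2 h5 (Or.inl h7))
      · exact Or.inl (Inst.mid1 IH hN h hadj h1 h4 h3 (Or.inl h6))
    · exact Or.inl (Inst.mid1 IH hN h hadj h1 h4 h3 (Or.inr h5))
  · rcases mem_union.1 h2 with h5 | h5
    · exact absurd h5 h4
    · exact Or.inl (hmid2 h5 (Or.inr h4))

/-- the last closing -/
theorem Inst.final (h : Inst G F1 F2 A b d) {K : Finset (Sym2 V)} (hK : K ⊆ F1 ∪ F2)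
    (hT : TF K) (hQ : QF K) (hb : dg K b = 1) (hd : dg K d = 1)
    (hall : ∀ v, v ≠ b → v ≠ d → dg K v = 0 ∨ dg K v = 2) (hA : ∀ v ∈ A, dg K v = 2)
    {x y v u : V} (h1 : s(b, x) ∈ F1) (h2 : s(x, y) ∈ F1) (h2' : s(x, y) ∈ F2)
    (h3 : s(y, d) ∈ F2) (hxA : x ∈ A) (hyA : y ∈ A) (hbv : s(b, v) ∈ K) (hvu : s(v, u) ∈ K)
    (hud : s(u, d) ∈ K) (hxv : x ≠ v) (hxu : x ≠ u) (hyv : y ≠ v) (hyu : y ≠ u) :
    CovE5 G (insert b (insert d A)) := by
  have hbd := h.ne
  have hl1 : ∀ v, s(v, v) ∉ F1 := fun v hv => h.hl v (mem_union_left _ hv)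
  have hl2 : ∀ v, s(v, v) ∉ F2 := fun v hv => h.hl v (mem_union_right _ hv)
  have hlK : ∀ v, s(v, v) ∉ K := fun v hv => h.hl v (hK hv)
  have hxb : x ≠ b := by
    rintro rfl
    exact hl1 _ h1
  have hxd : x ≠ d := by
    rintro rfl
    exact no_edge h.e1 b h1
  have hyd : y ≠ d := by
    rintro rfl
    exact hl2 _ h3
  have hyb : y ≠ b := by
    rintro rfl
    exact no_edge' h.b2 d h3
  have hxy : x ≠ y := by
    rintro rfl
    exact hl1 _ h2
  have hvb : v ≠ b := by
    rintro rfl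
    exact hlK _ hbv
  have hvd : v ≠ d := by
    rintro rfl
    exact no_edge h.e1 b (h.at_b (hK hbv))
  have hud' : u ≠ d := by
    rintro rfl
    exact hlK _ hud
  have hub : u ≠ b := by
    rintro rfl
    exact no_edge' h.b2 d (h.at_d (hK hud))
  have hKb : ∀ t, s(b, t) ∈ K → t = v := fun t ht => nb_unique hb ht hbv
  have hKd : ∀ t, s(t, d) ∈ K → t = u := fun t ht => nb_unique hd (smem_comm ht) (smem_comm hud)
  have hle : ∀ w, dg K w ≤ 2 := by
    intro w
    by_cases hwb : w = b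
    · rw [hwb]; omega
    · by_cases hwd : w = d
      · rw [hwd]; omega
      · rcases hall w hwb hwd with h4 | h4 <;> omega
  -- neighbours of u and v
  have hKu : ∀ t, s(u, t) ∈ K → t = d ∨ t = v := fun t ht =>
    nb_two (hle u) hud (smem_comm hvu) (Ne.symm hvd) ht
  have hKv : ∀ t, s(v, t) ∈ K → t = b ∨ t = u := fun t ht =>
    nb_two (hle v) (smem_comm hbv) hvu (Ne.symm hub) ht
  have hxK2 := hA x hxA
  have hyK2 := hA y hyA
  -- the edge xy is in K
  have hxyK : s(x, y) ∈ K := by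
    by_contra hc
    obtain ⟨n1, n2, hn, hn1, hn2⟩ := two_nb hxK2
    have hF : ∀ n, s(x, n) ∈ K → s(x, n) ∈ F2 := by
      intro n hn
      rcases mem_union.1 (hK hn) with h4 | h4
      · have hF1x : dg F1 x ≤ 2 := by
          have := h.a1 x hxA
          omega
        rcases nb_two hF1x (smem_comm h1) h2 (Ne.symm hyb) h4 with h5 | h5
        · rw [h5] at hn
          exact absurd (hKb x (smem_comm hn)) hxv
        · rw [h5] at hn
          exact absurd hn hc
      · exact h4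
    have h4 := three_le (hF n1 hn1) (hF n2 hn2) h2' hn (by rintro rfl; exact hc hn1)
      (by rintro rfl; exact hc hn2)
    have := h.a2 x hxA
    omega
  set Y := K.erase s(x, y) with hY
  have hYK : Y ⊆ K := erase_subset _ _
  have hYx : dg Y x + 1 = dg K x := dg_erase_mem hxyK (Sym2.mem_mk_left x y)
  have hYy : dg Y y + 1 = dg K y := dg_erase_mem hxyK (Sym2.mem_mk_right x y)
  have hYo : ∀ w, w ≠ x → w ≠ y → dg Y w = dg K w := by
    intro w h4 h5
    apply dg_erase_not hxyK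
    simp [Sym2.mem_iff, h4, h5]
  have hydY : s(y, d) ∉ Y := fun h4 => hyu (hKd y (hYK h4))
  have hlY : ∀ v, s(v, v) ∉ Y := fun v hv => hlK v (hYK hv)
  set Z := insert s(y, d) Y with hZ
  have hZy : dg Z y = dg Y y + 1 := dg_insert_mem hydY (Sym2.mem_mk_left y d)
  have hZd : dg Z d = dg Y d + 1 := dg_insert_mem hydY (Sym2.mem_mk_right y d)
  have hZo : ∀ w, w ≠ y → w ≠ d → dg Z w = dg Y w := by
    intro w h4 h5
    apply dg_insert_not
    simp [Sym2.mem_iff, h4, h5]
  have hZT : TF Z := by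
    refine (hT.mono hYK).insert hyd hlY ?_
    intro t ht ht2
    rw [hKd t (hYK ht2)] at ht
    rcases hKu y (smem_comm (hYK ht)) with h4 | h4
    · exact hyd h4
    · exact hyv h4
  have hZQ : QF Z := by
    refine (hQ.mono hYK).ins hyd hlY ?_
    intro p q hp _ h4 h5 h6
    rw [hKd q (hYK h6)] at h5
    rcases hKu p (smem_comm (hYK h5)) with h7 | h7
    · exact hp h7
    · rw [h7] at h4
      rcases hKv y (smem_comm (hYK h4)) with h8 | h8
      · exact hyb h8
      · exact hyu h8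
  have hlZ : ∀ v, s(v, v) ∉ Z := by
    intro v hv
    rcases mem_insert.1 hv with h4 | h4
    · rcases Sym2.eq_iff.1 h4 with ⟨h5, h6⟩ | ⟨h5, h6⟩
      · exact hyd (h5.symm.trans h6)
      · exact hyd (h6.symm.trans h5)
    · exact hlY v h4
  -- edges of Z at a vertex different from y, d
  have hZK : ∀ p q, p ≠ y → p ≠ d → s(p, q) ∈ Z → s(p, q) ∈ K := by
    intro p q h4 h5 h6
    rcases mem_insert.1 h6 with h7 | h7
    · rcases Sym2.eq_iff.1 h7 with ⟨h8, -⟩ | ⟨h8, -⟩
      · exact absurd h8 h4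
      · exact absurd h8 h5
    · exact hYK h7
  have hxbZ : s(x, b) ∉ Z := by
    intro h4
    exact hxv (hKb x (smem_comm (hZK x b hxy hxd h4)))
  set W := insert s(x, b) Z with hW
  have hWx : dg W x = dg Z x + 1 := dg_insert_mem hxbZ (Sym2.mem_mk_left x b)
  have hWb : dg W b = dg Z b + 1 := dg_insert_mem hxbZ (Sym2.mem_mk_right x b)
  have hWo : ∀ w, w ≠ x → w ≠ b → dg W w = dg Z w := by
    intro w h4 h5
    apply dg_insert_not
    simp [Sym2.mem_iff, h4, h5]
  have hWT : TF W := by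
    refine hZT.insert hxb hlZ ?_
    intro t ht ht2
    have h4 : s(b, t) ∈ K := hZK b t (Ne.symm hyb) hbd (smem_comm ht2)
    rw [hKb t h4] at ht
    rcases hKv x (smem_comm (hZK x v hxy hxd ht)) with h5 | h5
    · exact hxb h5
    · exact hxu h5
  have hWQ : QF W := by
    refine hZQ.ins hxb hlZ ?_
    intro p q hp _ h4 h5 h6
    have h7 : s(b, q) ∈ K := hZK b q (Ne.symm hyb) hbd (smem_comm h6)
    rw [hKb q h7] at h5
    have h8 : s(v, p) ∈ K := hZK v p (Ne.symm hyv) hvd (smem_comm h5)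
    rcases hKv p h8 with h9 | h9
    · exact hp h9
    · rw [h9] at h4
      rcases hKu x (smem_comm (hZK x u hxy hxd h4)) with h10 | h10
      · exact hxd h10
      · exact hxv h10
  -- degrees of W
  have dx : dg W x = 2 := by
    rw [hWx, hZo x hxy hxd]
    omega
  have dy : dg W y = 2 := by
    rw [hWo y (Ne.symm hxy) hyb]
    omega
  have db : dg W b = 2 := by
    rw [hWb, hZo b (Ne.symm hyb) hbd, hYo b (Ne.symm hxb) (Ne.symm hyb)]
    omega
  have dd : dg W d = 2 := by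
    rw [hWo d (Ne.symm hxd) (Ne.symm hbd), hZd, hYo d (Ne.symm hxd) (Ne.symm hyd)]
    omega
  have hrest : ∀ w, w ≠ x → w ≠ y → w ≠ b → w ≠ d → dg W w = dg K w := by
    intro w h4 h5 h6 h7
    rw [hWo w h4 h6, hZo w h5 h7, hYo w h4 h5]
  refine ⟨W, ?_, hWT, hWQ, ?_, ?_⟩
  · intro e he
    rcases mem_insert.1 he with h4 | h4
    · rw [h4, Sym2.eq_swap]
      exact h.g1 _ h1
    · rcases mem_insert.1 h4 with h5 | h5
      · rw [h5]
        exact h.g2 _ h3
      · exact h.hg _ (hK (hYK h5))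
  · intro w
    by_cases hwx : w = x
    · rw [hwx]; exact Or.inr dx
    by_cases hwy : w = y
    · rw [hwy]; exact Or.inr dy
    by_cases hwb : w = b
    · rw [hwb]; exact Or.inr db
    by_cases hwd : w = d
    · rw [hwd]; exact Or.inr dd
    rw [hrest w hwx hwy hwb hwd]
    exact hall w hwb hwd
  · intro w hw
    by_cases hwb : w = b
    · rw [hwb]; exact db
    by_cases hwd : w = d
    · rw [hwd]; exact dd
    have hwA : w ∈ A := by
      rcases mem_insert.1 hw with h4 | h4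
      · exact absurd h4 hwb
      rcases mem_insert.1 h4 with h5 | h5
      · exact absurd h5 hwd
      · exact h5
    by_cases hwx : w = x
    · rw [hwx]; exact dx
    by_cases hwy : w = y
    · rw [hwy]; exact dy
    rw [hrest w hwx hwy hwb hwd]
    exact hA w hwA

/-- covering obtained at the first end of the walk -/
theorem Inst.end1 (h : Inst G F1 F2 A b d) {K : Finset (Sym2 V)} (hK : K ⊆ F1 ∪ F2) (hT : TF K)
    (hQ : QF K) (h1 : ∀ v, dg K v = 0 ∨ dg K v = 2) (h2 : ∀ v ∈ A, dg K v = 2)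
    (h3 : dg K b = 2) (h4 : dg K d = 2) : CovE5 G (insert b (insert d A)) := by
  refine ⟨K, fun e he => h.hg e (hK he), hT, hQ, h1, ?_⟩
  intro v hv
  rcases mem_insert.1 hv with h5 | hv
  · rw [h5]; exact h3
  rcases mem_insert.1 hv with h5 | hv
  · rw [h5]; exact h4
  · exact h2 v hv

end

/-- exchange along an edge -/
theorem exchange_edge (hW : Walk5 V) (G : SimpleGraph V) : ∀ (N : ℕ) (F1 F2 : Finset (Sym2 V))
    (A : Finset V) (b d : V), (symmDiff F1 F2).card ≤ N → Inst G F1 F2 A b d → G.Adj b d →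
      CovE5 G (insert b (insert d A)) := by
  intro N
  induction N with
  | zero =>
    intro F1 F2 A b d hN h _
    have h0 : (symmDiff F1 F2).card = 0 := by omega
    rw [card_eq_zero] at h0
    have h1 : F1 = F2 := symmDiff_eq_bot.1 h0
    have h2 := h.b1
    have h3 := h.b2
    rw [h1] at h2
    omega
  | succ N ih =>
    intro F1 F2 A b d hN h hadj
    have hbd := h.ne
    have hpath : (SimpleGraph.Walk.cons hadj SimpleGraph.Walk.nil).IsPath := by
      rw [SimpleGraph.Walk.cons_isPath_iff]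
      refine ⟨SimpleGraph.Walk.IsPath.nil, ?_⟩
      rw [SimpleGraph.Walk.support_nil, List.mem_singleton]
      exact hbd
    have hsupp : ∀ v ∈ (SimpleGraph.Walk.cons hadj SimpleGraph.Walk.nil).support,
        v ≠ b → v ≠ d → dg F1 v = 0 ∧ dg F2 v = 0 := by
      intro v hv h1 h2
      rw [SimpleGraph.Walk.support_cons, SimpleGraph.Walk.support_nil, List.mem_cons,
        List.mem_singleton] at hv
      rcases hv with h3 | h3
      · exact absurd h3 h1
      · exact absurd h3 h2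
    obtain ⟨y1, y2, hy12, hy1, hy2⟩ := two_nb h.e2
    obtain ⟨K, hK, hT, hQ, ⟨k1, k2, k3, k4⟩ | ⟨hb, hd, hall, hA, -⟩⟩ := hW F1 F2 A b d y1 h.hl hbd
      h.t1 h.q1 h.t2 h.q2 h.d1 h.a1 h.b1 h.e1 h.d2 h.a2 h.e2 h.b2 hy1
    · exact h.end1 hK hT hQ k1 k2 k3 k4
    by_cases h3 : ∃ z, s(b, z) ∈ K ∧ s(z, d) ∈ K
    · obtain ⟨z, hz1, hz2⟩ := h3
      exact h.case2 (h.at_b (hK hz1)) (h.at_d (hK hz2)) _ hpath
        (fun v hv h1 h2 => (hsupp v hv h1 h2).1)
    by_cases h4 : ∃ u v, u ≠ d ∧ v ≠ b ∧ s(b, u) ∈ K ∧ s(u, v) ∈ K ∧ s(v, d) ∈ K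
    swap
    · exact h.closeK hK hT hQ hb hd hall hA _ hpath hsupp
        (fun z hz1 hz2 => h3 ⟨z, hz1, hz2⟩)
        (fun _ u v h5 h6 h7 h8 h9 => h4 ⟨u, v, h5, h6, h7, h8, h9⟩)
    obtain ⟨x, y, hxd, hyb, hbx, hxy, hyd⟩ := h4
    have hbx1 : s(b, x) ∈ F1 := h.at_b (hK hbx)
    have hyd2 : s(y, d) ∈ F2 := h.at_d (hK hyd)
    rcases Inst.mid ih hN h hadj hbx1 (hK hxy) hyd2 with hc | ⟨hxy1, hxy2, hxA, hyA⟩
    · exact hc
    -- the other neighbour of d
    obtain ⟨e, hey, hde⟩ : ∃ e, e ≠ y ∧ s(d, e) ∈ F2 := by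
      by_cases hy : y1 = y
      · refine ⟨y2, ?_, hy2⟩
        rw [← hy]
        exact Ne.symm hy12
      · exact ⟨y1, hy, hy1⟩
    have hF1x : dg F1 x ≤ 2 := le_of_eq (h.a1 x hxA)
    have hF2y : dg F2 y ≤ 2 := le_of_eq (h.a2 y hyA)
    have hF2d : dg F2 d ≤ 2 := le_of_eq h.e2
    have heb : e ≠ b := by
      rintro rfl
      exact no_edge h.b2 d hde
    -- xe is not in F1 and not in F2
    have hxe1 : s(x, e) ∉ F1 := by
      intro h5
      rcases nb_two hF1x (smem_comm hbx1) hxy1 (Ne.symm hyb) h5 with h6 | h6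
      · exact heb h6
      · exact hey h6
    have hxe2 : s(x, e) ∉ F2 := by
      intro h5
      exact h.q2 d y x e (Ne.symm hxd) (Ne.symm hey) (smem_comm hyd2) (smem_comm hxy2) h5
        (smem_comm hde)
    obtain ⟨K', hK', hT', hQ', ⟨k1, k2, k3, k4⟩ | ⟨hb', hd', hall', hA', hrot⟩⟩ :=
      hW F1 F2 A b d e h.hl hbd
      h.t1 h.q1 h.t2 h.q2 h.d1 h.a1 h.b1 h.e1 h.d2 h.a2 h.e2 h.b2 hde
    · exact h.end1 hK' hT' hQ' k1 k2 k3 k4
    have hdeK : s(d, e) ∈ K' := by
      apply hrot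
      intro d' w hd1 hne hw hwd hwe
      have h5 : d' = y := by
        rcases nb_two hF2d (smem_comm hyd2) hde (Ne.symm hey) hd1 with h6 | h6
        · exact h6
        · exact absurd h6 hne
      rw [h5] at hw
      rcases nb_two hF2y hyd2 (smem_comm hxy2) (Ne.symm hxd) hw with h6 | h6
      · exact hwd h6
      · rw [h6] at hwe
        exact hxe1 hwe
    by_cases h3' : ∃ z, s(b, z) ∈ K' ∧ s(z, d) ∈ K'
    · obtain ⟨z, hz1, hz2⟩ := h3'
      exact h.case2 (h.at_b (hK' hz1)) (h.at_d (hK' hz2)) _ hpath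
        (fun v hv h1 h2 => (hsupp v hv h1 h2).1)
    by_cases h4' : ∃ u v, u ≠ d ∧ v ≠ b ∧ s(b, u) ∈ K' ∧ s(u, v) ∈ K' ∧ s(v, d) ∈ K'
    swap
    · exact h.closeK hK' hT' hQ' hb' hd' hall' hA' _ hpath hsupp
        (fun z hz1 hz2 => h3' ⟨z, hz1, hz2⟩)
        (fun _ u v h5 h6 h7 h8 h9 => h4' ⟨u, v, h5, h6, h7, h8, h9⟩)
    obtain ⟨v, u, hvd, hub, hbv, hvu, hud⟩ := h4'
    have hue : u = e := nb_unique hd' (smem_comm hud) hdeK
    rw [hue] at hub hvu hud
    have hbv1 : s(b, v) ∈ F1 := h.at_b (hK' hbv)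
    have hxv : x ≠ v := by
      rintro rfl
      rcases mem_union.1 (hK' hvu) with h5 | h5
      · exact hxe1 h5
      · exact hxe2 h5
    have hyv : y ≠ v := by
      rintro rfl
      exact h.t1 b x y hbx1 hxy1 hbv1
    have hxe : x ≠ e := by
      rintro rfl
      exact h.t2 d x y hde hxy2 (smem_comm hyd2)
    rcases Inst.mid ih hN h hadj hbv1 (hK' hvu) (smem_comm hde) with hc | -
    · exact hc
    exact h.final hK' hT' hQ' hb' hd' hall' hA' hbx1 hxy1 hxy2 hyd2 hxA hyA hbv hvu hud hxv hxe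
      hyv (Ne.symm hey)

/-- exchange lemma for cycles of length `≥ 5`, edge set form, from the walk -/
theorem exchangeE5' (hW : Walk5 V) (G : SimpleGraph V) {A : Finset V} {b d : V}
    (hb : CovE5 G (insert b A)) (hd : CovE5 G (insert d A)) (p : G.Walk b d)
    (hp : ∀ v ∈ p.support, v ≠ b → v ≠ d → ¬ CovE5 G (insert v A)) :
    CovE5 G (insert b (insert d A)) := by
  by_cases hbd : b = d
  · subst hbd
    rw [insert_idem]
    exact hb
  obtain ⟨F1, g1, t1, q1, d1, a1⟩ := hb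
  obtain ⟨F2, g2, t2, q2, d2, a2⟩ := hd
  have b1 : dg F1 b = 2 := a1 b (mem_insert_self _ _)
  have e2 : dg F2 d = 2 := a2 d (mem_insert_self _ _)
  have a1' : ∀ v ∈ A, dg F1 v = 2 := fun v hv => a1 v (mem_insert_of_mem hv)
  have a2' : ∀ v ∈ A, dg F2 v = 2 := fun v hv => a2 v (mem_insert_of_mem hv)
  rcases d1 d with e1 | e1
  swap
  · refine ⟨F1, g1, t1, q1, d1, ?_⟩
    intro v hv
    rcases mem_insert.1 hv with h | hv
    · rw [h]; exact b1
    rcases mem_insert.1 hv with h | hv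
    · rw [h]; exact e1
    · exact a1' v hv
  rcases d2 b with b2 | b2
  swap
  · refine ⟨F2, g2, t2, q2, d2, ?_⟩
    intro v hv
    rcases mem_insert.1 hv with h | hv
    · rw [h]; exact b2
    rcases mem_insert.1 hv with h | hv
    · rw [h]; exact e2
    · exact a2' v hv
  have h : Inst G F1 F2 A b d := ⟨g1, t1, q1, d1, a1', b1, e1, g2, t2, q2, d2, a2', e2, b2⟩
  by_cases hadj : G.Adj b d
  · exact exchange_edge hW G _ F1 F2 A b d le_rfl h hadj
  have hsupp : ∀ v ∈ p.bypass.support, v ≠ b → v ≠ d → dg F1 v = 0 ∧ dg F2 v = 0 := by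
    intro v hv h1 h2
    have h3 := hp v (p.support_bypass_subset_support hv) h1 h2
    constructor
    · rcases d1 v with h4 | h4
      · exact h4
      · exfalso
        apply h3
        refine ⟨F1, g1, t1, q1, d1, ?_⟩
        intro w hw
        rcases mem_insert.1 hw with h5 | h5
        · rw [h5]; exact h4
        · exact a1' w h5
    · rcases d2 v with h4 | h4
      · exact h4
      · exfalso
        apply h3
        refine ⟨F2, g2, t2, q2, d2, ?_⟩
        intro w hw
        rcases mem_insert.1 hw with h5 | h5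
        · rw [h5]; exact h4
        · exact a2' w h5
  obtain ⟨y1, y2, hy12, hy1, hy2⟩ := two_nb h.e2
  obtain ⟨K, hK, hT, hQ, ⟨k1, k2, k3, k4⟩ | ⟨hKb, hKd, hall, hA, -⟩⟩ := hW F1 F2 A b d y1 h.hl hbd
    h.t1 h.q1 h.t2 h.q2 h.d1 h.a1 h.b1 h.e1 h.d2 h.a2 h.e2 h.b2 hy1
  · exact h.end1 hK hT hQ k1 k2 k3 k4
  by_cases h3 : ∃ z, s(b, z) ∈ K ∧ s(z, d) ∈ K
  · obtain ⟨z, hz1, hz2⟩ := h3
    exact h.case2 (h.at_b (hK hz1)) (h.at_d (hK hz2)) p.bypass p.bypass_isPath
      (fun v hv h1 h2 => (hsupp v hv h1 h2).1)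
  · exact h.closeK hK hT hQ hKb hKd hall hA p.bypass p.bypass_isPath hsupp
      (fun z hz1 hz2 => h3 ⟨z, hz1, hz2⟩) (fun h9 => absurd h9 hadj)

end H40T
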