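import Pool.Agent.Lib.H40T.X5
import Pool.Agent.Lib.H32L5.D

/-! Every simple drawing (abstract form): plane 2-connected spanning subgraph with a 2-factor all of
whose cycles have length at least five. -/

namespace H40T

open Finset H98P H98Z H98M H63F H30F H85TF H98TF

variable {V : Type*} [Fintype V] [DecidableEq V]

theorem not_diag_of_sub {G : Finset (Sym2 V)} (hG : G ⊆ LW univ) : ∀ e ∈ G, ¬ e.IsDiag := by
  intro e he hd
  induction e with
  | _ x y =>
    rw [Sym2.mk_isDiag_iff] at hd
    rw [hd] at he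
    exact H8F.notMem_diag hG y he

theorem plane_five {cross : Sym2 V → Sym2 V → Prop} (hsymm : ∀ e f, cross e f → cross f e)
    (hHD : ∀ W, HD cross W) (h5 : 5 ≤ Fintype.card V) :
    ∃ G : Finset (Sym2 V), G ⊆ LW univ ∧ Plane cross G ∧ TC G ∧ H8F.Cov5 G univ := by
  refine H8F.plane_five hsymm hHD h5 ?_ ?_
  · intro G hG _ A b d U hb hd hbU hdU hU hin
    exact exch5_set (not_diag_of_sub hG) hb hd hbU hdU hU hin
  · intro G hG hT v hv
    exact H32L5.class5 (not_diag_of_sub hG) h5 hT.1 hT.2 v hv

end H40T
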