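import Pool.Agent.Lib.H40T.P1

/-! Edge sets without triangles and 4-cycles: basic lemmas (insertion of an edge, closing with a
path). -/

namespace H40T

open Finset H91P

variable {V : Type*} [DecidableEq V]

/-- no 4-cycle -/
def QF (E : Finset (Sym2 V)) : Prop :=
  ∀ x y z w, x ≠ z → y ≠ w → s(x, y) ∈ E → s(y, z) ∈ E → s(z, w) ∈ E → s(w, x) ∉ E

omit [DecidableEq V] in
theorem QF.mono {E F : Finset (Sym2 V)} (h : QF F) (hEF : E ⊆ F) : QF E :=
  fun x y z w h1 h2 h3 h4 h5 h6 => h x y z w h1 h2 (hEF h3) (hEF h4) (hEF h5) (hEF h6)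

omit [DecidableEq V] in
theorem smem_comm {E : Finset (Sym2 V)} {x y : V} (h : s(x, y) ∈ E) : s(y, x) ∈ E := by
  rw [Sym2.eq_swap]
  exact h

omit [DecidableEq V] in
/-- two opposite sides of a 4-cycle are different -/
theorem opp {x y z w : V} (h1 : x ≠ z) (h2 : y ≠ z) : s(x, y) ≠ s(z, w) := by
  intro h
  rcases Sym2.eq_iff.1 h with ⟨h3, -⟩ | ⟨-, h3⟩
  · exact h1 h3
  · exact h2 h3

/-- inserting an edge `wu` which is in no 4-cycle -/
theorem QF.ins {E : Finset (Sym2 V)} (h : QF E) {a c : V} (hac : a ≠ c)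
    (hl : ∀ v, s(v, v) ∉ E)
    (hz : ∀ p q, p ≠ c → q ≠ a → s(a, p) ∈ E → s(p, q) ∈ E → s(q, c) ∉ E) :
    QF (insert s(a, c) E) := by
  have hl' : ∀ v, s(v, v) ∉ insert s(a, c) E := by
    intro v hv
    rcases mem_insert.1 hv with h | h
    · rcases Sym2.eq_iff.1 h with ⟨h3, h4⟩ | ⟨h3, h4⟩
      · exact hac (h3.symm.trans h4)
      · exact hac (h4.symm.trans h3)
    · exact hl v h
  -- a 4-cycle with first side the new edge
  have key : ∀ x y z w, x ≠ z → y ≠ w → s(x, y) = s(a, c) → s(y, z) ∈ E → s(z, w) ∈ E →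
      s(w, x) ∈ E → False := by
    intro x y z w h1 h2 h3 h4 h5 h6
    rcases Sym2.eq_iff.1 h3 with ⟨rfl, rfl⟩ | ⟨rfl, rfl⟩
    · exact hz w z (Ne.symm h2) (Ne.symm h1) (smem_comm h6) (smem_comm h5) (smem_comm h4)
    · exact hz z w (Ne.symm h1) (Ne.symm h2) h4 h5 h6
  have mem' : ∀ {e f : Sym2 V}, e = s(a, c) → f ∈ insert s(a, c) E → e ≠ f → f ∈ E := by
    intro e f h1 h2 h3
    rcases mem_insert.1 h2 with h | h
    · exact absurd (h1.trans h.symm) h3
    · exact h
  -- the general case, first side new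
  have key2 : ∀ x y z w, x ≠ z → y ≠ w → s(x, y) = s(a, c) → s(y, z) ∈ insert s(a, c) E →
      s(z, w) ∈ insert s(a, c) E → s(w, x) ∈ insert s(a, c) E → False := by
    intro x y z w h1 h2 h3 h4 h5 h6
    have hyz : y ≠ z := by
      rintro rfl
      exact hl' _ h4
    refine key x y z w h1 h2 h3 (mem' h3 h4 ?_) (mem' h3 h5 (opp h1 hyz)) (mem' h3 h6 ?_)
    · intro h
      rw [Sym2.eq_swap] at h
      exact h1 (Sym2.congr_right.1 h)
    · intro h
      rw [Sym2.eq_swap] at h
      exact h2 (Sym2.congr_left.1 h)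
  intro x y z w h1 h2 h3 h4 h5 h6
  rcases mem_insert.1 h3 with h | h3'
  · exact key2 x y z w h1 h2 h h4 h5 h6
  rcases mem_insert.1 h4 with h | h4'
  · exact key2 y z w x h2 (Ne.symm h1) h h5 h6 h3
  rcases mem_insert.1 h5 with h | h5'
  · exact key2 z w x y (Ne.symm h1) (Ne.symm h2) h h6 h3 h4
  rcases mem_insert.1 h6 with h | h6'
  · exact key2 w x y z (Ne.symm h2) h1 h h3 h4 h5
  exact h x y z w h1 h2 h3' h4' h5' h6'

/-- closing with a path -/
theorem close5 (G : SimpleGraph V) {x y : V} (p : G.Walk x y) :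
    p.IsPath → x ≠ y → ∀ H : Finset (Sym2 V), (∀ e ∈ H, e ∈ G.edgeSet) → TF H → QF H →
      dg H x = 1 → dg H y = 1 → s(x, y) ∉ H → (∀ z, s(x, z) ∈ H → s(z, y) ∉ H) →
      (G.Adj x y → ∀ u v, u ≠ y → v ≠ x → s(x, u) ∈ H → s(u, v) ∈ H → s(v, y) ∉ H) →
      (∀ v, v ≠ x → v ≠ y → dg H v = 0 ∨ dg H v = 2) →
      (∀ v ∈ p.support, v ≠ x → v ≠ y → dg H v = 0) →
      ∃ F : Finset (Sym2 V), (∀ e ∈ F, e ∈ G.edgeSet) ∧ H ⊆ F ∧ TF F ∧ QF F ∧
        (∀ v, dg F v = 0 ∨ dg F v = 2) ∧ dg F x = 2 ∧ dg F y = 2 := by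
  induction p with
  | nil => intro _ h; exact absurd rfl h
  | @cons x z y hxz p ih =>
    intro hp hxy H hHG hTH hQH hx hy hxyH hq hq4 hall hin
    rw [SimpleGraph.Walk.cons_isPath_iff] at hp
    obtain ⟨hp, hxp⟩ := hp
    have hzx : z ≠ x := fun h => (hxz.ne h.symm)
    have hlH : ∀ v, s(v, v) ∉ H := fun v h => G.loopless.irrefl v (hHG _ h)
    by_cases hzy : z = y
    · subst hzy
      have hxe : dg (insert s(x, z) H) x = dg H x + 1 :=
        dg_insert_mem hxyH (Sym2.mem_mk_left x z)
      have hze : dg (insert s(x, z) H) z = dg H z + 1 :=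
        dg_insert_mem hxyH (Sym2.mem_mk_right x z)
      refine ⟨insert s(x, z) H, ?_, subset_insert _ _, hTH.insert (Ne.symm hzx) hlH hq,
        hQH.ins (Ne.symm hzx) hlH (hq4 hxz), ?_, by omega, by omega⟩
      · intro e he
        rcases mem_insert.1 he with h | h
        · rw [h]; exact hxz
        · exact hHG e h
      · intro v
        by_cases hvx : v = x
        · subst hvx; right; omega
        · by_cases hvz : v = z
          · subst hvz; right; omega
          · rw [dg_insert_not (by simp [Sym2.mem_iff, hvx, hvz])]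
            exact hall v hvx hvz
    · have hz0 : dg H z = 0 := hin z (by simp) hzx hzy
      have hnz : ∀ t, s(t, z) ∉ H := by
        intro t h
        have := dg_pos h (Sym2.mem_mk_right t z)
        omega
      have hxzH : s(x, z) ∉ H := hnz x
      have hxe : dg (insert s(x, z) H) x = dg H x + 1 :=
        dg_insert_mem hxzH (Sym2.mem_mk_left x z)
      have hze : dg (insert s(x, z) H) z = dg H z + 1 :=
        dg_insert_mem hxzH (Sym2.mem_mk_right x z)
      have hoe : ∀ v, v ≠ x → v ≠ z → dg (insert s(x, z) H) v = dg H v := by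
        intro v h3 h4
        apply dg_insert_not
        simp [Sym2.mem_iff, h3, h4]
      have hTi : TF (insert s(x, z) H) := by
        refine hTH.insert (Ne.symm hzx) hlH ?_
        intro t _ ht
        exact hnz t ht
      have hQi : QF (insert s(x, z) H) := by
        refine hQH.ins (Ne.symm hzx) hlH ?_
        intro t u _ _ _ _ ht
        exact hnz u ht
      -- edges of the new graph at `z`
      have hz1 : ∀ t, s(z, t) ∈ insert s(x, z) H → t = x := by
        intro t ht
        exact nb_unique (E := insert s(x, z) H) (w := z) (by omega) ht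
            (by rw [Sym2.eq_swap]; exact mem_insert_self _ _)
      have hto : ∀ t u, t ≠ z → u ≠ z → s(t, u) ∈ insert s(x, z) H → s(t, u) ∈ H := by
        intro t u ht hu h
        rcases mem_insert.1 h with h | h
        · rcases Sym2.eq_iff.1 h with ⟨-, h3⟩ | ⟨h3, -⟩
          · exact absurd h3 hu
          · exact absurd h3 ht
        · exact h
      have hxy' : s(x, y) ∉ insert s(x, z) H := fun h =>
        hxyH (hto x y (Ne.symm hzx) (Ne.symm hzy) h)
      obtain ⟨F, hFG, hF, hTF, hQF, hFall, hFz, hFy⟩ := ih hp hzy (insert s(x, z) H) (by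
          intro e he
          rcases mem_insert.1 he with h | h
          · rw [h]; exact hxz
          · exact hHG e h) hTi hQi (by omega)
        (by rw [hoe y (Ne.symm hxy) (Ne.symm hzy)]; exact hy)
        (by
          intro h
          exact hxy (hz1 y h).symm)
        (by
          intro t ht ht2
          rw [hz1 t ht] at ht2
          exact hxy' ht2)
        (by
          intro _ u v _ hvz hu huv hvy
          rw [hz1 u hu] at huv
          exact hq v (hto x v (Ne.symm hzx) hvz huv) (hto v y hvz (Ne.symm hzy) hvy))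
        (by
          intro v h3 h4
          by_cases hvx : v = x
          · subst hvx; right; omega
          · rw [hoe v hvx h3]
            exact hall v hvx h4)
        (by
          intro v hv h3 h4
          have hvx : v ≠ x := by
            rintro rfl
            exact hxp hv
          rw [hoe v hvx h3]
          exact hin v (by simp [hv]) hvx h4)
      refine ⟨F, hFG, (subset_insert _ _).trans hF, hTF, hQF, hFall, ?_, hFy⟩
      have := dg_mono hF x
      rcases hFall x with h | h
      · omega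
      · exact h

end H40T
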