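import Pool.Agent.Lib.H40T.R
import Pool.Agent.Lib.H91P.C1

/-! Separations of a 2-connected graph: uncrossed separations, or a cycle. -/

set_option autoImplicit false
set_option linter.unusedSectionVars false

namespace H40T

open Finset H98M LD

variable {V : Type*} [DecidableEq V]

section

variable {G : SimpleGraph V}

theorem path_edge {x y : V} (p : G.Walk x y) (hp : p.IsPath) (h : s(x, y) ∈ p.edges) :
    ∀ v ∈ p.support, v = x ∨ v = y := by
  cases p with
  | nil =>
    intro v hv
    rw [SimpleGraph.Walk.support_nil, List.mem_singleton] at hv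
    exact Or.inl hv
  | @cons _ z _ hxz p =>
    rw [SimpleGraph.Walk.cons_isPath_iff] at hp
    rw [SimpleGraph.Walk.edges_cons, List.mem_cons] at h
    rcases h with h | h
    · have hyz : y = z := Sym2.congr_right.1 h
      subst hyz
      rw [SimpleGraph.Walk.isPath_iff_eq_nil.1 hp.1]
      intro v hv
      rw [SimpleGraph.Walk.support_cons, SimpleGraph.Walk.support_nil, List.mem_cons,
        List.mem_singleton] at hv
      exact hv
    · exact absurd (SimpleGraph.Walk.fst_mem_support_of_mem_edges p h) hp.2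

theorem path_dg {x y : V} (p : G.Walk x y) : p.IsPath → x ≠ y →
    H91P.dg p.edges.toFinset x = 1 ∧ H91P.dg p.edges.toFinset y = 1 ∧
      (∀ v ∈ p.support, v ≠ x → v ≠ y → H91P.dg p.edges.toFinset v = 2) ∧
      ∀ v, v ∉ p.support → H91P.dg p.edges.toFinset v = 0 := by
  induction p with
  | nil => intro _ h; exact absurd rfl h
  | @cons x z y hxz p ih =>
    intro hp hxy
    rw [SimpleGraph.Walk.cons_isPath_iff] at hp
    obtain ⟨hp, hx⟩ := hp
    have hzx : z ≠ x := hxz.ne.symm
    have hnot : s(x, z) ∉ p.edges.toFinset := by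
      rw [List.mem_toFinset]
      intro h
      exact hx (SimpleGraph.Walk.fst_mem_support_of_mem_edges p h)
    have hE : (SimpleGraph.Walk.cons hxz p).edges.toFinset = insert s(x, z) p.edges.toFinset := by
      rw [SimpleGraph.Walk.edges_cons, List.toFinset_cons]
    rw [hE]
    have d1 : H91P.dg (insert s(x, z) p.edges.toFinset) x = H91P.dg p.edges.toFinset x + 1 :=
      H91P.dg_insert_mem hnot (Sym2.mem_mk_left x z)
    have d2 : H91P.dg (insert s(x, z) p.edges.toFinset) z = H91P.dg p.edges.toFinset z + 1 :=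
      H91P.dg_insert_mem hnot (Sym2.mem_mk_right x z)
    have d3 : ∀ v, v ≠ x → v ≠ z → H91P.dg (insert s(x, z) p.edges.toFinset) v =
        H91P.dg p.edges.toFinset v := by
      intro v h1 h2
      apply H91P.dg_insert_not
      simp [Sym2.mem_iff, h1, h2]
    by_cases hzy : z = y
    · subst hzy
      have hnil : p = SimpleGraph.Walk.nil := SimpleGraph.Walk.isPath_iff_eq_nil.1 hp
      have h0 : ∀ v, H91P.dg p.edges.toFinset v = 0 := by
        intro v
        rw [hnil]
        simp [H91P.dg]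
      refine ⟨by rw [d1, h0], by rw [d2, h0], ?_, ?_⟩
      · intro v hv h1 h2
        rw [hnil, SimpleGraph.Walk.support_cons, SimpleGraph.Walk.support_nil, List.mem_cons,
          List.mem_singleton] at hv
        rcases hv with h3 | h3
        · exact absurd h3 h1
        · exact absurd h3 h2
      · intro v hv
        rw [SimpleGraph.Walk.support_cons, List.mem_cons, not_or] at hv
        rw [d3 v hv.1 (fun h1 => hv.2 (by rw [h1]; exact p.start_mem_support)), h0]
    · obtain ⟨i1, i2, i3, i4⟩ := ih hp hzy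
      refine ⟨by rw [d1, i4 x hx], by rw [d3 y (Ne.symm hxy) (Ne.symm hzy), i2], ?_, ?_⟩
      · intro v hv h1 h2
        rw [SimpleGraph.Walk.support_cons, List.mem_cons] at hv
        rcases hv with h3 | h3
        · exact absurd h3 h1
        · by_cases hvz : v = z
          · rw [hvz, d2, i1]
          · rw [d3 v h1 hvz, i3 v h3 hvz h2]
      · intro v hv
        rw [SimpleGraph.Walk.support_cons, List.mem_cons, not_or] at hv
        rw [d3 v hv.1 (fun h1 => hv.2 (by rw [h1]; exact p.start_mem_support)), i4 v hv.2]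

theorem dg_union {C D : Finset (Sym2 V)} (h : ∀ e ∈ C, e ∉ D) (v : V) :
    H91P.dg (C ∪ D) v = H91P.dg C v + H91P.dg D v := by
  unfold H91P.dg
  rw [filter_union, card_union_of_disjoint]
  rw [disjoint_left]
  intro e he he'
  exact h e (mem_filter.1 he).1 (mem_filter.1 he').1

theorem walk_stay {C : Finset (Sym2 V)} {A B : Finset V} (hn : ∀ a ∈ A, ∀ b ∈ B, s(a, b) ∉ C)
    {x y : V} (p : G.Walk x y) : (∀ e ∈ p.edges, e ∈ C) → (∀ v ∈ p.support, v ∈ A ∨ v ∈ B) →
      x ∈ A → ∀ v ∈ p.support, v ∈ A := by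
  induction p with
  | nil =>
    intro _ _ hx v hv
    rw [SimpleGraph.Walk.support_nil, List.mem_singleton] at hv
    rw [hv]
    exact hx
  | @cons x z y hxz p ih =>
    intro hC hAB hx v hv
    rw [SimpleGraph.Walk.support_cons, List.mem_cons] at hv
    rcases hv with h | h
    · rw [h]
      exact hx
    · refine ih (fun e he => hC e (by rw [SimpleGraph.Walk.edges_cons]; exact List.mem_cons_of_mem _ he))
        (fun w hw => hAB w (by
          rw [SimpleGraph.Walk.support_cons]
          exact List.mem_cons_of_mem _ hw)) ?_ v h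
      rcases hAB z (by
          rw [SimpleGraph.Walk.support_cons]
          exact List.mem_cons_of_mem _ p.start_mem_support) with h1 | h1
      · exact h1
      · exact absurd (hC s(x, z) (by
          rw [SimpleGraph.Walk.edges_cons]
          exact List.mem_cons_self)) (hn x hx z h1)

end

variable {E : Finset (Sym2 V)} {Y : Finset V}

/-- gluing the two sides -/
theorem glue (hT : TCY E Y) {N : Finset V} {x y : V} {P Q : Finset V} (h : Sep E Y x y P Q)
    (hP : ∃ w ∈ N, w ∈ P) (h1 : Thr E N x y P) (h2 : Thr E N x y Q) (hN : N ⊆ Y) :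
    ∃ C ⊆ E, (∀ v, H91P.dg C v = 0 ∨ H91P.dg C v = 2) ∧ (∀ v ∈ N, H91P.dg C v = 2) ∧
      (∀ v, v ∉ Y → H91P.dg C v = 0) ∧ (Y ⊆ N → ¬ Disc Y C) := by
  classical
  obtain ⟨p, hp, p1, p2⟩ := h1
  obtain ⟨q, hq, q1, q2⟩ := h2
  have hxy := h.ne
  obtain ⟨a1, a2, a3, a4⟩ := path_dg p hp hxy
  obtain ⟨b1, b2, b3, b4⟩ := path_dg q hq hxy
  have hsub : ∀ {x y : V} (p : (SimpleGraph.fromEdgeSet (E : Set (Sym2 V))).Walk x y),
      p.edges.toFinset ⊆ E := by
    intro x y p e he
    rw [List.mem_toFinset] at he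
    have h3 := SimpleGraph.Walk.edges_subset_edgeSet p he
    rw [SimpleGraph.edgeSet_fromEdgeSet] at h3
    exact_mod_cast h3.1
  have hpn : ∀ v ∈ Q, v ∉ p.support := by
    intro v hv hv'
    rcases p1 v hv' with h3 | h3 | h3
    · exact h.xQ (h3 ▸ hv)
    · exact h.yQ (h3 ▸ hv)
    · exact disjoint_left.1 h.dis h3 hv
  have hqn : ∀ v ∈ P, v ∉ q.support := by
    intro v hv hv'
    rcases q1 v hv' with h3 | h3 | h3
    · exact h.xP (h3 ▸ hv)
    · exact h.yP (h3 ▸ hv)
    · exact disjoint_left.1 h.dis hv h3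
  have hdis : ∀ e ∈ p.edges.toFinset, e ∉ q.edges.toFinset := by
    intro e he he'
    rw [List.mem_toFinset] at he he'
    induction e with
    | _ a b =>
      have ha := SimpleGraph.Walk.fst_mem_support_of_mem_edges p he
      have hb := SimpleGraph.Walk.snd_mem_support_of_mem_edges p he
      have ha' := SimpleGraph.Walk.fst_mem_support_of_mem_edges q he'
      have hb' := SimpleGraph.Walk.snd_mem_support_of_mem_edges q he'
      have key : ∀ v ∈ p.support, v ∈ q.support → v = x ∨ v = y := by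
        intro v hv hv'
        rcases p1 v hv with h3 | h3 | h3
        · exact Or.inl h3
        · exact Or.inr h3
        · exact absurd hv' (hqn v h3)
      have hab : a ≠ b := by
        rintro rfl
        exact hT.loop _ (hsub p (by rw [List.mem_toFinset]; exact he)) (by simp)
      have hxyp : s(x, y) ∈ p.edges := by
        have h5 : s(a, b) = s(x, y) := by
          rcases key a ha ha' with h3 | h3 <;> rcases key b hb hb' with h4 | h4
          · exact absurd (h3.trans h4.symm) hab
          · rw [h3, h4]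
          · rw [h3, h4, Sym2.eq_swap]
          · exact absurd (h3.trans h4.symm) hab
        rw [← h5]
        exact he
      obtain ⟨w, hw, hwP⟩ := hP
      rcases path_edge p hp hxyp w (p2 w hw hwP) with h3 | h3
      · exact h.xP (h3 ▸ hwP)
      · exact h.yP (h3 ▸ hwP)
  have hd := dg_union hdis
  have hx2 : H91P.dg (p.edges.toFinset ∪ q.edges.toFinset) x = 2 := by rw [hd, a1, b1]
  have hy2 : H91P.dg (p.edges.toFinset ∪ q.edges.toFinset) y = 2 := by rw [hd, a2, b2]
  refine ⟨p.edges.toFinset ∪ q.edges.toFinset, union_subset (hsub p) (hsub q), ?_, ?_, ?_, ?_⟩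
  · intro v
    by_cases hvx : v = x
    · rw [hvx]; exact Or.inr hx2
    by_cases hvy : v = y
    · rw [hvy]; exact Or.inr hy2
    rw [hd]
    by_cases hvp : v ∈ p.support
    · rcases p1 v hvp with h3 | h3 | h3
      · exact absurd h3 hvx
      · exact absurd h3 hvy
      · rw [a3 v hvp hvx hvy, b4 v (hqn v h3)]
        exact Or.inr rfl
    · rw [a4 v hvp]
      by_cases hvq : v ∈ q.support
      · rw [b3 v hvq hvx hvy]
        exact Or.inr rfl
      · rw [b4 v hvq]
        exact Or.inl rfl
  · intro v hv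
    rcases (mem_of_sep h).1 (hN hv) with h3 | h3 | h3 | h3
    · rw [h3]; exact hx2
    · rw [h3]; exact hy2
    · rw [hd, a3 v (p2 v hv h3) (fun h4 => h.xP (h4 ▸ h3)) (fun h4 => h.yP (h4 ▸ h3)),
        b4 v (hqn v h3)]
    · rw [hd, b3 v (q2 v hv h3) (fun h4 => h.xQ (h4 ▸ h3)) (fun h4 => h.yQ (h4 ▸ h3)),
        a4 v (hpn v h3)]
  · intro v hv
    rw [hd, a4 v, b4 v]
    · intro hv'
      apply hv
      rcases q1 v hv' with h3 | h3 | h3
      · rw [h3]; exact x_mem h
      · rw [h3]; exact y_mem h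
      · exact sub_side h.symm h3
    · intro hv'
      apply hv
      rcases p1 v hv' with h3 | h3 | h3
      · rw [h3]; exact x_mem h
      · rw [h3]; exact y_mem h
      · exact sub_side h h3
  · rintro hYN ⟨A, B, hA, hB, hAB, hU, hn⟩
    -- the part with `x` contains everything
    have key : ∀ A B : Finset V, A ∪ B = Y → Disjoint A B → B.Nonempty →
        (∀ a ∈ A, ∀ b ∈ B, s(a, b) ∉ p.edges.toFinset ∪ q.edges.toFinset) → x ∈ A → False := by
      intro A B hU hAB hB hn hx
      have hp' := walk_stay hn p (fun e he => mem_union_left _ (by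
        rw [List.mem_toFinset]; exact he)) (fun v hv => by
          rw [← mem_union, hU]
          rcases p1 v hv with h3 | h3 | h3
          · rw [h3]; exact x_mem h
          · rw [h3]; exact y_mem h
          · exact sub_side h h3) hx
      have hq' := walk_stay hn q (fun e he => mem_union_right _ (by
        rw [List.mem_toFinset]; exact he)) (fun v hv => by
          rw [← mem_union, hU]
          rcases q1 v hv with h3 | h3 | h3
          · rw [h3]; exact x_mem h
          · rw [h3]; exact y_mem h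
          · exact sub_side h.symm h3) hx
      obtain ⟨b, hb⟩ := hB
      have hbY : b ∈ Y := by rw [← hU]; exact mem_union_right _ hb
      have hbA : b ∈ A := by
        rcases (mem_of_sep h).1 hbY with h3 | h3 | h3 | h3
        · rw [h3]; exact hx
        · rw [h3]; exact hp' y p.end_mem_support
        · exact hp' b (p2 b (hYN hbY) h3)
        · exact hq' b (q2 b (hYN hbY) h3)
      exact disjoint_left.1 hAB hbA hb
    have hxU : x ∈ A ∪ B := by rw [hU]; exact x_mem h
    rcases mem_union.1 hxU with h3 | h3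
    · exact key A B hU hAB hB hn h3
    · refine key B A (by rw [union_comm]; exact hU) hAB.symm hA ?_ h3
      intro a ha b hb
      rw [Sym2.eq_swap]
      exact hn b hb a ha

/-- (T3): if `N` is not covered and some separation separates `N`, then an uncrossed one does. -/
theorem exists_unc_sep (hT : TCY E Y) {N : Finset V} (hN : N ⊆ Y) (hc : ¬ H85TF.Cov E N)
    (h : ∃ x y P Q, Sep E Y x y P Q ∧ (∃ w ∈ N, w ∈ P) ∧ ∃ w ∈ N, w ∈ Q) :
    ∃ x y P Q, Sep E Y x y P Q ∧ Unc E Y x y ∧ (∃ w ∈ N, w ∈ P) ∧ ∃ w ∈ N, w ∈ Q := by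
  by_contra hcon
  have hcr : ∀ x y P Q, Sep E Y x y P Q → (∃ w ∈ N, w ∈ P) → (∃ w ∈ N, w ∈ Q) → ¬ Unc E Y x y :=
    fun x y P Q h1 h2 h3 h4 => hcon ⟨x, y, P, Q, h1, h4, h2, h3⟩
  obtain ⟨x, y, P, Q, hs, hP, hQ⟩ := h
  obtain ⟨C, hC, h1, h2, -, -⟩ := glue hT hs hP (ring hT hcr _ x y P Q le_rfl hs hQ)
    (ring hT hcr _ x y Q P le_rfl hs.symm hP) hN
  exact hc ⟨C, hC, h1, h2⟩

/-- (S8'): if there are separations and all of them are crossed, the graph is Hamiltonian. -/
theorem ham_of_crossed (hT : TCY E Y) (h : ∃ x y P Q, Sep E Y x y P Q)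
    (hcr : ∀ x y P Q, Sep E Y x y P Q → ¬ Unc E Y x y) :
    ∃ C ⊆ E, (∀ v ∈ Y, H85TF.dg C v = 2) ∧ (∀ v, v ∉ Y → H85TF.dg C v = 0) ∧ ¬ Disc Y C := by
  obtain ⟨x, y, P, Q, hs⟩ := h
  have hP : ∃ w ∈ Y, w ∈ P := by
    obtain ⟨w, hw⟩ := hs.P0
    exact ⟨w, sub_side hs hw, hw⟩
  have hQ : ∃ w ∈ Y, w ∈ Q := by
    obtain ⟨w, hw⟩ := hs.Q0
    exact ⟨w, sub_side hs.symm hw, hw⟩
  obtain ⟨C, hC, -, h2, h3, h4⟩ := glue hT hs hP
    (ring hT (fun x y P Q h1 _ _ => hcr x y P Q h1) _ x y P Q le_rfl hs hQ)
    (ring hT (fun x y P Q h1 _ _ => hcr x y P Q h1) _ x y Q P le_rfl hs.symm hP) (Subset.refl Y)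
  exact ⟨C, hC, h2, h3, h4 (Subset.refl Y)⟩

end H40T
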