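import Pool.Agent.Lib.H40T.X5

/-! Exchange lemma for disjoint cycles of length at least 5 with explicit families `F1`, `F2`. -/

namespace H40T

open Finset H91P

variable {V : Type*} [DecidableEq V]

/-- exchange with explicit families: `F1` covers `A + b` and misses `d`, `F2` covers `A + d` and
misses `b`, the inner vertices of the path are off both -/
theorem exchange_explicit {G : SimpleGraph V} {F1 F2 : Finset (Sym2 V)} {A : Finset V} {b d : V}
    (h : Inst G F1 F2 A b d) (p : G.Walk b d) (hp : p.IsPath)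
    (hsupp : ∀ v ∈ p.support, v ≠ b → v ≠ d → dg F1 v = 0 ∧ dg F2 v = 0) :
    CovE5 G (insert b (insert d A)) := by
  by_cases hadj : G.Adj b d
  · exact exchange_edge walk5 G _ F1 F2 A b d le_rfl h hadj
  obtain ⟨y1, y2, hy12, hy1, hy2⟩ := two_nb h.e2
  obtain ⟨K, hK, hT, hQ, ⟨k1, k2, k3, k4⟩ | ⟨hKb, hKd, hall, hA, -⟩⟩ :=
    walk5 F1 F2 A b d y1 h.hl
    h.ne h.t1 h.q1 h.t2 h.q2 h.d1 h.a1 h.b1 h.e1 h.d2 h.a2 h.e2 h.b2 hy1
  · exact h.end1 hK hT hQ k1 k2 k3 k4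
  by_cases h3 : ∃ z, s(b, z) ∈ K ∧ s(z, d) ∈ K
  · obtain ⟨z, hz1, hz2⟩ := h3
    exact h.case2 (h.at_b (hK hz1)) (h.at_d (hK hz2)) p hp
      (fun v hv h1 h2 => (hsupp v hv h1 h2).1)
  · exact h.closeK hK hT hQ hKb hKd hall hA p hp hsupp
      (fun z hz1 hz2 => h3 ⟨z, hz1, hz2⟩) (fun h9 => absurd h9 hadj)

end H40T
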